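import Mathlib

/-!
# A transcendence basis which contains a given element
-/

universe u

namespace RR

open IntermediateField

/-- Let `k` be a finitely generated field and `T` an element of `k` transcendental over `F`. Then `k` is a finite
extension of `F(s)(T)`, where `s` is a finite family such that `s` and `T` are algebraically independent. -/
theorem exists_tower {F k : Type u} [Field F] [Field k] [Algebra F k]
    (hk : ∃ S : Finset k, Subfield.closure (S : Set k) = ⊤) {T : k} (hT : Transcendental F T) :
    ∃ (n : ℕ) (s : Fin n → k), AlgebraicIndependent F s ∧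
      Transcendental (adjoin F (Set.range s)) T ∧
      FiniteDimensional (adjoin (adjoin F (Set.range s)) {T}) k := by
  classical
  obtain ⟨S, hS⟩ := hk
  let t : Set k := {T} ∪ (S : Set k)
  have hadj : adjoin F t = ⊤ := by
    rw [eq_top_iff]
    intro x _
    have h1 : Subfield.closure (S : Set k) ≤ (adjoin F t).toSubfield := by
      rw [Subfield.closure_le]
      exact fun y hy => subset_adjoin F t (Or.inr hy)
    rw [hS] at h1
    exact h1 (Subfield.mem_top x)
  have halg : Algebra.IsAlgebraic (Algebra.adjoin F t) k := by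
    refine ⟨fun x => ?_⟩
    have hx : x ∈ adjoin F t := by rw [hadj]; trivial
    obtain ⟨a, ha, b, hb, rfl⟩ := mem_adjoin_iff_div.1 hx
    have h1 : IsAlgebraic (Algebra.adjoin F t) a :=
      isAlgebraic_algebraMap (⟨a, ha⟩ : Algebra.adjoin F t)
    have h2 : IsAlgebraic (Algebra.adjoin F t) b :=
      isAlgebraic_algebraMap (⟨b, hb⟩ : Algebra.adjoin F t)
    rw [div_eq_mul_inv]
    exact h1.mul h2.inv
  have hTi : AlgebraicIndepOn F id ({T} : Set k) := by
    change AlgebraicIndependent F (fun x : ({T} : Set k) => (x : k))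
    rw [algebraicIndependent_unique_type_iff]
    exact hT
  obtain ⟨u, hTu, hut, hu⟩ := exists_isTranscendenceBasis_between ({T} : Set k) t
    Set.subset_union_left hTi
  have hufin : u.Finite := ((Set.finite_singleton T).union S.finite_toSet).subset hut
  have hT' : T ∈ u := hTu rfl
  let u' : Finset k := hufin.toFinset.erase T
  have hu' : ∀ x, x ∈ u' ↔ x ≠ T ∧ x ∈ u := by
    intro x
    rw [Finset.mem_erase, Set.Finite.mem_toFinset]
  let e := u'.equivFin
  let s : Fin u'.card → k := fun i => (e.symm i : k)
  have hsu : ∀ i, s i ∈ u ∧ s i ≠ T := fun i => by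
    have h1 := (hu' (s i)).1 (e.symm i).2
    exact ⟨h1.2, h1.1⟩
  have hsinj : Function.Injective s := fun i j hij => e.symm.injective (Subtype.ext hij)
  have hrange : ∀ x, x ∈ u → x = T ∨ x ∈ Set.range s := by
    intro x hx
    by_cases hxT : x = T
    · exact Or.inl hxT
    · refine Or.inr ⟨e ⟨x, (hu' x).2 ⟨hxT, hx⟩⟩, ?_⟩
      simp only [s, Equiv.symm_apply_apply]
  have hx : AlgebraicIndependent F (Sum.elim s ![T]) := by
    let φ : Fin u'.card ⊕ Fin 1 → u := Sum.elim (fun i => ⟨s i, (hsu i).1⟩) (fun _ => ⟨T, hT'⟩)
    have hφ : Function.Injective φ := by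
      rintro (i | i) (j | j) hij
      · exact congrArg Sum.inl (hsinj (congrArg (fun y : u => (y : k)) hij))
      · exact absurd (congrArg Subtype.val hij) (hsu i).2
      · exact absurd (congrArg Subtype.val hij).symm (hsu j).2
      · rw [Subsingleton.elim i j]
    have h1 := hu.1.comp φ hφ
    have h2 : (Subtype.val : u → k) ∘ φ = Sum.elim s ![T] := by
      funext i
      rcases i with i | i
      · rfl
      · fin_cases i
        rfl
    rwa [h2] at h1
  have h1 : AlgebraicIndependent F (Sum.elim ![T] s) := by
    have h2 := hx.comp Sum.swap Sum.swap_leftInverse.injective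
    have h3 : Sum.elim s ![T] ∘ Sum.swap = Sum.elim ![T] s := by
      funext i
      rcases i with i | i <;> rfl
    rwa [h3] at h2
  obtain ⟨hs, hTs⟩ := AlgebraicIndependent.sumElim_iff.1 h1
  have hTs' : AlgebraicIndependent (adjoin F (Set.range s)) ![T] :=
    algebraicIndependent_adjoin_iff.2 hTs
  refine ⟨u'.card, s, hs, hTs'.transcendental 0, ?_⟩
  -- finiteness
  set F₁ := adjoin F (Set.range s) with hF₁
  set L := adjoin F₁ {T} with hL
  have hFL : ∀ x : F, algebraMap F k x ∈ L := fun x => by
    have h1 : algebraMap F k x = algebraMap F₁ k (algebraMap F F₁ x) :=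
      IsScalarTower.algebraMap_apply F F₁ k x
    rw [h1]
    exact L.algebraMap_mem _
  have huL : ∀ x ∈ u, x ∈ L := by
    intro x hx
    rcases hrange x hx with rfl | hx
    · exact mem_adjoin_simple_self F₁ x
    · exact L.algebraMap_mem (⟨x, subset_adjoin F _ hx⟩ : F₁)
  have hle : ∀ x ∈ Algebra.adjoin F (Set.range ((↑) : u → k)), x ∈ L := by
    intro x hx
    induction hx using Algebra.adjoin_induction with
    | mem x hx =>
      obtain ⟨y, rfl⟩ := hx
      exact huL _ y.2
    | algebraMap r => exact hFL r
    | add x y _ _ hx hy => exact add_mem hx hy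
    | mul x y _ _ hx hy => exact mul_mem hx hy
  have halg2 : ∀ x : k, IsAlgebraic L x := by
    intro x
    have h2 := hu.isAlgebraic
    obtain ⟨p, hp0, hp⟩ := h2.isAlgebraic x
    let ψ : Algebra.adjoin F (Set.range ((↑) : u → k)) →+* L :=
      ((Algebra.adjoin F (Set.range ((↑) : u → k))).val : _ →+* k).codRestrict L.toSubfield.toSubring
        (fun y => hle y y.2)
    have hψ : Function.Injective ψ := by
      intro a b hab
      exact Subtype.ext (congrArg (fun z : L => (z : k)) hab)
    refine ⟨p.map ψ, (Polynomial.map_ne_zero_iff hψ).2 hp0, ?_⟩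
    rw [Polynomial.aeval_def, Polynomial.eval₂_map]
    exact hp
  have htop : adjoin L (S : Set k) = ⊤ := by
    rw [eq_top_iff]
    intro x _
    have h1 : Subfield.closure (S : Set k) ≤ (adjoin L (S : Set k)).toSubfield := by
      rw [Subfield.closure_le]
      exact fun y hy => subset_adjoin L _ hy
    rw [hS] at h1
    exact h1 (Subfield.mem_top x)
  have hfd : FiniteDimensional L (adjoin L (S : Set k)) :=
    finiteDimensional_adjoin fun x _ => (halg2 x).isIntegral
  rw [htop] at hfd
  exact Module.Finite.equiv (topEquiv (F := L) (E := k)).toLinearEquiv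

/-- the subfield generated by a finite family over a finitely generated field is finitely generated -/
theorem fg_adjoin {F k : Type u} [Field F] [Field k] [Algebra F k]
    (hF : ∃ S : Finset F, Subfield.closure (S : Set F) = ⊤) {n : ℕ} (s : Fin n → k) :
    ∃ S : Finset (adjoin F (Set.range s)), Subfield.closure (S : Set (adjoin F (Set.range s))) = ⊤ := by
  classical
  obtain ⟨S, hS⟩ := hF
  let s₁ : Fin n → adjoin F (Set.range s) := fun i => ⟨s i, subset_adjoin F _ ⟨i, rfl⟩⟩
  let X' : Finset (adjoin F (Set.range s)) :=
    S.image (algebraMap F (adjoin F (Set.range s))) ∪ Finset.univ.image s₁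
  refine ⟨X', ?_⟩
  set X : Set (adjoin F (Set.range s)) := (X' : Set (adjoin F (Set.range s))) with hX
  rw [eq_top_iff]
  have h1 : ∀ x : F, algebraMap F (adjoin F (Set.range s)) x ∈ Subfield.closure X := by
    intro x
    have h2 : Subfield.closure (S : Set F) ≤
        (Subfield.closure X).comap (algebraMap F (adjoin F (Set.range s))) := by
      rw [Subfield.closure_le]
      intro y hy
      apply Subfield.subset_closure
      simp only [hX, X', Finset.coe_union]
      exact Or.inl (by
        rw [Finset.coe_image]
        exact ⟨y, hy, rfl⟩)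
    rw [hS] at h2
    exact h2 (Subfield.mem_top x)
  have h2 : (adjoin F (Set.range s)).toSubfield ≤
      (Subfield.closure X).map (algebraMap (adjoin F (Set.range s)) k) := by
    rw [adjoin_toSubfield, Subfield.closure_le]
    rintro x (⟨y, rfl⟩ | ⟨i, rfl⟩)
    · exact ⟨_, h1 y, rfl⟩
    · refine ⟨s₁ i, Subfield.subset_closure ?_, rfl⟩
      simp only [hX, X', Finset.coe_union]
      refine Or.inr ?_
      rw [Finset.coe_image]
      exact ⟨i, Finset.mem_coe.2 (Finset.mem_univ i), rfl⟩
  intro x _
  obtain ⟨y, hy, hyx⟩ := h2 x.2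
  have h3 : y = x := Subtype.ext hyx
  rw [← h3]
  exact hy

end RR
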