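import Pool.Agent.Helper13.RR.B1
import Pool.Agent.Helper10.UL.ThinOne
import Pool.Agent.Helper10.UL.Reindex
import Pool.Agent.Helper10.UL.SplitW
import Pool.Agent.Helper10.UL.Shift

/-!
# Curves with coefficients in a linear system
-/

universe u v

namespace RR

open Polynomial UL Pool.Agent.RRW Pool.Agent.Helper37.UL

/-- zeros over a larger field -/
theorem exists_eval_of_evk {F k : Type u} [Field F] [Field k] [Algebra F k] {I : Type v}
    {G : MvPolynomial I k} (hG : G ≠ 0) : ∃ G' : MvPolynomial I F, G' ≠ 0 ∧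
      ∀ a : I → F, evk a G = 0 → MvPolynomial.eval a G' = 0 := by
  classical
  obtain ⟨μ, hμ⟩ := MvPolynomial.ne_zero_iff.1 hG
  obtain ⟨φ, hφ⟩ : ∃ φ : Module.Dual F k, φ (G.coeff μ) ≠ 0 := by
    by_contra hcon
    push Not at hcon
    exact hμ ((Module.forall_dual_apply_eq_zero_iff F _).1 hcon)
  refine ⟨∑ ν ∈ G.support, MvPolynomial.monomial ν (φ (G.coeff ν)), ?_, fun a ha => ?_⟩
  · intro h0
    have h1 := congrArg (MvPolynomial.coeff μ) h0
    rw [MvPolynomial.coeff_sum, MvPolynomial.coeff_zero, Finset.sum_eq_single μ] at h1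
    · rw [MvPolynomial.coeff_monomial, if_pos rfl] at h1
      exact hφ h1
    · intro ν _ hν
      rw [MvPolynomial.coeff_monomial, if_neg hν]
    · intro h2
      rw [MvPolynomial.notMem_support_iff.1 h2, map_zero, map_zero, MvPolynomial.coeff_zero]
  · rw [map_sum]
    have h1 : evk (k := k) a G = ∑ ν ∈ G.support, G.coeff ν *
        algebraMap F k (ν.prod fun i n => a i ^ n) := by
      unfold evk
      rw [MvPolynomial.eval_eq]
      refine Finset.sum_congr rfl fun ν _ => ?_
      rw [Finsupp.prod, map_prod]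
      congr 1
      exact Finset.prod_congr rfl fun i _ => (map_pow _ _ _).symm
    rw [h1] at ha
    have h2 := congrArg φ ha
    rw [map_zero, map_sum] at h2
    rw [← h2]
    refine Finset.sum_congr rfl fun ν _ => ?_
    rw [MvPolynomial.eval_monomial, mul_comm (G.coeff ν), ← Algebra.smul_def, map_smul, smul_eq_mul,
      mul_comm]

/-- The polynomial `∑ i, (∑ e, a (i, e) w e) X ^ i`. -/
noncomputable def curveW {F k : Type u} [Field F] [Field k] [Algebra F k] {d m : ℕ}
    (w : Fin (m + 1) → k) (a : Fin (d + 1) × Fin (m + 1) → F) : k[X] :=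
  ∑ i : Fin (d + 1), C (∑ e : Fin (m + 1), algebraMap F k (a (i, e)) * w e) * X ^ (i : ℕ)

variable {F k : Type u} [Field F] [Field k] [Algebra F k] {d m : ℕ}

lemma curveW_eq_spec (w : Fin (m + 1) → k) (a : Fin (d + 1) × Fin (m + 1) → F) :
    curveW w a = spec fun i : Fin (d + 1) => ∑ e, algebraMap F k (a (i, e)) * w e := rfl

lemma coeff_curveW (w : Fin (m + 1) → k) (a : Fin (d + 1) × Fin (m + 1) → F) (i : Fin (d + 1)) :
    (curveW w a).coeff i = ∑ e : Fin (m + 1), algebraMap F k (a (i, e)) * w e :=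
  coeff_spec (fun i => ∑ e : Fin (m + 1), algebraMap F k (a (i, e)) * w e) i

/-- The polynomials which are not separable of degree `d` are in a hypersurface. -/
theorem thin_not_separable_W [CharZero F] {w : Fin (m + 1) → k} (hw : w 0 ≠ 0) (hd : 3 ≤ d) :
    IsThin {a : Fin (d + 1) × Fin (m + 1) → F | ¬ ((curveW w a).natDegree = d ∧
      (curveW w a).Separable)} := by
  classical
  have hk0 : CharZero k := charZero_of_injective_algebraMap (algebraMap F k).injective
  obtain ⟨G', hG', hG⟩ := exists_eval_of_evk (F := F) (RR_genc_ne_zero (F := F) (d := d) hw (by omega))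
  refine IsThin.of_zeros (Ψ := G') hG' fun a ha => hG a ?_
  by_contra hne
  apply ha
  rw [← RR_map, map_spec_genc, ← curveW_eq_spec] at hne
  exact (RR_ne_zero_iff (by omega) (by rw [curveW_eq_spec]; exact natDegree_spec _)).1 hne

end RR
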