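import Pool.Agent.Helper10.RR.Key
import Pool.Agent.Helper10.UL.ChoiceW
import Pool.Agent.Helper10.UL.Restrict

/-!
# Assembly: linear systems
-/

universe u

namespace RR

open Polynomial Pool.Agent.Helper37.UL Pool.Agent.Helper91.Sect Pool.Agent.HP UL

/-- The coefficients of the curves with sections are thin: finite extensions of `F(T)`. -/
theorem thin_key_W {F k : Type u} [Field F] [CharZero F] [Field k] [Algebra F k]
    (hF : ∃ S : Finset F, Subfield.closure (S : Set F) = ⊤) {d m : ℕ} {w : Fin (m + 1) → k}
    (hw0 : w 0 ≠ 0) {o : Fin (m + 1)} (ho : (o : ℕ) = 1) (hT : Transcendental F (w o / w 0))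
    [FiniteDimensional (IntermediateField.adjoin F {w o / w 0}) k]
    (hd : 3 ≤ d) {p : ℕ} (hp : p.Prime) (hpd : p ∣ d) :
    IsThin {a : Fin (d + 1) × Fin (m + 1) → F | (curveW w a).natDegree = d ∧
      (curveW w a).Separable ∧ SectionP p (curveW w a)} := by
  classical
  have hm : 1 ≤ m := by have := o.2; omega
  have ho0 : o ≠ 0 := by
    intro h
    rw [h] at ho
    simp at ho
  let C : Type u := AlgebraicClosure k
  let κ : Subfield C := (algebraicClosure F C).toSubfield
  have hκ : ∀ c : C, c ∈ κ ↔ IsAlgebraic F c := fun c => mem_algebraicClosure_iff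
  set T : k := w o / w 0 with hTdef
  obtain ⟨n, q, htop, hq, hs⟩ := exists_splitW (C := C) hT hκ w hw0
  let c : F := n
  have hcn : algebraMap F k c = (n : k) := map_natCast _ _
  set T₁ : k := T - n with hT₁
  have hTT₁ : T = T₁ + algebraMap F k c := by rw [hT₁, hcn, sub_add_cancel]
  have hadj : IntermediateField.adjoin F {T₁} = IntermediateField.adjoin F {T} := by
    apply le_antisymm
    · rw [IntermediateField.adjoin_simple_le_iff, hT₁, ← hcn]
      exact sub_mem (IntermediateField.mem_adjoin_simple_self F T)
        ((IntermediateField.adjoin F {T}).algebraMap_mem c)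
    · rw [IntermediateField.adjoin_simple_le_iff, hTT₁]
      exact add_mem (IntermediateField.mem_adjoin_simple_self F T₁)
        ((IntermediateField.adjoin F {T₁}).algebraMap_mem c)
  have hT₁t : Transcendental F T₁ := by
    intro h
    apply hT
    rw [hTT₁]
    exact h.add (isAlgebraic_algebraMap c)
  have htop₁ : IntermediateField.adjoin F {T₁, q} = ⊤ := by
    rw [eq_top_iff, ← htop, IntermediateField.adjoin_le_iff]
    rintro x (hx | hx)
    · rw [hx, SetLike.mem_coe, hTT₁]
      exact add_mem (IntermediateField.subset_adjoin F _ (by simp))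
        ((IntermediateField.adjoin F {T₁, q}).algebraMap_mem c)
    · rw [Set.mem_singleton_iff.mp hx]
      exact IntermediateField.subset_adjoin F _ (by simp)
  have hq₁ : IsAlgebraic (IntermediateField.adjoin F {T₁}) q := by
    rw [hadj]
    exact hq
  -- the substitution
  let w₁ : Fin (m + 1) → k := fun e => if e = o then w e - algebraMap F k c * w 0 else w e
  have hw₁0 : w₁ 0 = w 0 := by
    simp only [w₁]
    rw [if_neg (Ne.symm ho0)]
  have hs₁ : TH.SplitW κ (algebraMap k C T₁) (algebraMap k C q)
      (fun l => algebraMap k C (w₁ l)) := by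
    have h1 := hs.subst ho0 (c := algebraMap k C (algebraMap F k c)) (by
      rw [hκ]
      have h2 : algebraMap k C (algebraMap F k c) = algebraMap F C c :=
        (IsScalarTower.algebraMap_apply F k C c).symm
      rw [h2]
      exact isAlgebraic_algebraMap c)
    have h3 : (fun e => if e = o then algebraMap k C (w e) -
        algebraMap k C (algebraMap F k c) * algebraMap k C (w 0) else algebraMap k C (w e)) =
        fun l => algebraMap k C (w₁ l) := by
      funext e
      simp only [w₁]
      split_ifs
      · rw [map_sub, map_mul]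
      · rfl
    rw [h3] at h1
    exact h1
  have hw₁1 : ∀ e : Fin (m + 1), (e : ℕ) = 1 → w₁ e = T₁ * w₁ 0 := by
    intro e he
    have heo : e = o := Fin.ext (by rw [he, ho])
    rw [hw₁0]
    simp only [w₁]
    rw [if_pos heo, heo]
    have h1 : w o = T * w 0 := (div_mul_cancel₀ _ hw0).symm
    rw [h1, hTT₁]
    ring
  refine (thin_subst (thin_key_splitW hF hT₁t hq₁ htop₁ hκ hs₁ (by rw [hw₁0]; exact hw0) hw₁1 hd hm
    hp hpd) ho0 c).mono ?_
  intro a ha
  change (curveW w₁ (subV o c a)).natDegree = d ∧ (curveW w₁ (subV o c a)).Separable ∧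
    SectionP p (curveW w₁ (subV o c a))
  rw [curveW_subst w ho0 c a]
  exact ha

/-- **No sections outside a thin set: finite extensions of `F(T)`.** -/
theorem no_sections_W {F k : Type u} [Field F] [CharZero F] [Field k] [Algebra F k]
    (hF : ∃ S : Finset F, Subfield.closure (S : Set F) = ⊤) {d m : ℕ} {w : Fin (m + 1) → k}
    (hw0 : w 0 ≠ 0) {o : Fin (m + 1)} (ho : (o : ℕ) = 1) (hT : Transcendental F (w o / w 0))
    [FiniteDimensional (IntermediateField.adjoin F {w o / w 0}) k] (hd : 3 ≤ d) :
    IsThin {a : Fin (d + 1) × Fin (m + 1) → F | ¬ HasNoSections d (curveW w a)} := by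
  classical
  refine ((thin_not_separable_W (m := m) hw0 hd).union (IsThin.biUnion d.primeFactors
    fun p hp => thin_key_W hF hw0 ho hT hd (Nat.prime_of_mem_primeFactors hp)
      (Nat.dvd_of_mem_primeFactors hp))).mono ?_
  intro a ha
  by_cases h1 : (curveW w a).natDegree = d ∧ (curveW w a).Separable
  · right
    by_contra hne
    apply ha
    refine hasNoSections_of h1.1 h1.2 fun p hp hpd hs => hne ?_
    rw [Set.mem_iUnion₂]
    exact ⟨p, Nat.mem_primeFactors.mpr ⟨hp, hpd, by omega⟩, h1.1, h1.2, hs⟩
  · exact Or.inl h1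

end RR
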