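import Pool.Agent.Helper10.RR.ThetaW2

/-!
# The two theorems in the form used by `no_family_W`
-/

universe u v w

namespace TH

open Polynomial Pool.Agent.Helper37.UL UL

theorem SplitW.ne_zero {C : Type u} [Field C] {κ : Subfield C} {T q : C} {m : ℕ}
    {w : Fin (m + 1) → C} (H : SplitW κ T q w) (hT : AlgebraicIndependent κ ![T]) : w 0 ≠ 0 := by
  obtain ⟨W, hW1, hW2⟩ := exists_W hT (fun _ => 0)
  have h1 : W.valuation T < 1 := by
    have h2 := hW2 0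
    rw [map_zero, sub_zero] at h2
    exact h2
  have h2 := (H.val W (fun x hx => hW1 ⟨x, hx⟩) h1).2
  intro h0
  rw [h0, map_zero] at h2
  exact zero_ne_one h2

variable {J : Type v} {U : Ultrafilter J} {C : Type u} [Field C] {S : Type w} [Field S]
  {π : (J → C) →+* S} (h : UP U π) {d m : ℕ} {vv : J → Fin (d + 1) × Fin (m + 1) → C}

include h in
theorem two_trans_W [IsAlgClosed C] [CharZero C]
    (hU : ∀ Ψ : MvPolynomial (Fin (d + 1) × Fin (m + 1)) C, Ψ ≠ 0 →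
      ∀ᶠ j in (U : Filter J), MvPolynomial.eval (vv j) Ψ ≠ 0)
    {κ : Subfield C} (hv : ∀ j i, vv j i ∈ κ) {T : C} (hT : AlgebraicIndependent κ ![T])
    {q : C} {w : Fin (m + 1) → C} (hq : SplitW κ T q w)
    (hd : 3 ≤ d) (hm : 1 ≤ m) (hw : w ⟨1, by omega⟩ = T * w 0)
    {θ : Fin d → S} (hθ : Function.Injective θ)
    (hroot : ∀ i, ∑ l : Fin (d + 1), (π fun a => ∑ e : Fin (m + 1), vv a (l, e) *
      w e) * θ i ^ (l : ℕ) = 0) {i j i' j' : Fin d} (hij : i ≠ j) (hij' : i' ≠ j') :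
    ∃ σ : S ≃+* S, (∀ x ∈ gen (h.gsub κ) (fun i => UP.cst π ((![T] : Fin 1 → C) i)), σ x = x) ∧
      σ (UP.cst π q) = UP.cst π q ∧ σ (θ i) = θ i' ∧ σ (θ j) = θ j' :=
  RR.two_trans_theta h hU hv hT hq (hq.ne_zero hT) (fun e he => by
    have h1 : e = ⟨1, by omega⟩ := Fin.ext he
    rw [h1]; exact hw) hd hm hθ hroot hij hij'

include h in
theorem no_lev_W [IsAlgClosed C] [CharZero C]
    (hU : ∀ Ψ : MvPolynomial (Fin (d + 1) × Fin (m + 1)) C, Ψ ≠ 0 →
      ∀ᶠ j in (U : Filter J), MvPolynomial.eval (vv j) Ψ ≠ 0)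
    {κ : Subfield C} {T : C} (hT : AlgebraicIndependent κ ![T]) {q : C} {w : Fin (m + 1) → C}
    (hq : SplitW κ T q w)
    {p : ℕ} (hp : p.Prime) (hd : 3 ≤ d) (hm : 1 ≤ m) (hw : w ⟨1, by omega⟩ = T * w 0)
    {L' : Subfield S} (hL : L' ≤ Subfield.closure ((UP.cst π '' κ) ∪ Set.range (xg π vv)))
    {θ : Fin d → S} {z : Fin d → Fin d → S} {α : S}
    (hl : Lev (Subfield.closure ((gen L' (fun i => UP.cst π ((![T] : Fin 1 → C) i)) : Set S) ∪
      {UP.cst π q})) p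
      (fun i : Fin (d + 1) => π fun a => ∑ e : Fin (m + 1), vv a (i, e) * w e)
      θ z α) : False :=
  RR.no_lev_theta h hU hT hq (hq.ne_zero hT) (fun e he => by
    have h1 : e = ⟨1, by omega⟩ := Fin.ext he
    rw [h1]; exact hw) hp hd hm hL hl

end TH
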