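import Pool.Agent.Helper10.RR.Ext

/-!
# The degenerations, with coefficients in a subfield of the decomposition field
-/

universe u

namespace RR

open Polynomial IsLocalRing Pool.Agent.Helper91.Sect Pool.Agent.Helper37.UL

/-- every valuation ring of `C` is the localization of the integral closure of its trace -/
theorem exists_loc {k1 C : Type u} [Field k1] [Field C] [Algebra k1 C] [Algebra.IsAlgebraic k1 C]
    (V : ValuationSubring C) :
    ∃ (Q : Ideal (integralClosure (V.comap (algebraMap k1 C)) C)) (_ : Q.IsPrime),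
      Above Q ∧ locW Q = V := by
  classical
  set O : ValuationSubring k1 := V.comap (algebraMap k1 C) with hO
  have hint : ∀ z : C, IsIntegral O z → z ∈ V := by
    intro z hz
    let _ : Algebra O V := (((algebraMap k1 C).comp O.subtype).codRestrict V.toSubring
      (fun x => x.2)).toAlgebra
    have h0 : IsScalarTower O V C := IsScalarTower.of_algebraMap_eq fun x => rfl
    have h1 : IsIntegral V z := hz.tower_top
    obtain ⟨y, hy⟩ := IsIntegrallyClosed.algebraMap_eq_of_integral h1
    rw [← hy]; exact y.2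
  let j : integralClosure O C →+* V :=
    ((integralClosure O C).val : integralClosure O C →+* C).codRestrict V.toSubring
      (fun x => hint _ x.2)
  have hmem : ∀ b : integralClosure O C, b ∈ (maximalIdeal V).comap j ↔
      V.valuation (b : C) < 1 := by
    intro b
    rw [Ideal.mem_comap]
    exact V.valuation_lt_one_iff (j b)
  set Q : Ideal (integralClosure O C) := (maximalIdeal V).comap j with hQ
  have hQp : Q.IsPrime := Ideal.comap_isPrime j _
  have hA : Above Q := by
    intro c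
    rw [hmem]
    exact (comap_lt_one (algebraMap k1 C) V (c : k1)).symm
  refine ⟨Q, hQp, hA, ?_⟩
  have hunit : ∀ b : integralClosure O C, b ∉ Q → V.valuation (b : C) = 1 := by
    intro b hb
    refine le_antisymm ((V.valuation_le_one_iff _).2 (hint _ b.2)) (not_lt.1 fun h => hb ?_)
    exact (hmem b).2 h
  apply le_antisymm
  · intro z hz
    obtain ⟨s, hs, hsz⟩ := (mem_locW (Q := Q)).1 hz
    have h1 := hunit s hs
    have h2 : V.valuation ((s : C) * z) ≤ 1 := (V.valuation_le_one_iff _).2 (hint _ hsz)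
    rw [map_mul, h1, one_mul] at h2
    exact (V.valuation_le_one_iff _).1 h2
  · intro z hz
    by_contra hcon
    have h0 : z ≠ 0 := by
      rintro rfl
      exact hcon (locW Q).zero_mem
    have h1 : 1 < (locW Q).valuation z := by
      rw [← not_le, (locW Q).valuation_le_one_iff]
      exact hcon
    have h2 : (locW Q).valuation z⁻¹ < 1 := by
      rw [map_inv₀]
      exact inv_lt_one_of_one_lt₀ h1
    obtain ⟨s, hs, hsz⟩ := (mem_locW (Q := Q)).1 (((locW Q).valuation_le_one_iff _).1 h2.le)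
    have h3 : (⟨(s : C) * z⁻¹, hsz⟩ : integralClosure O C) ∈ Q := by
      rw [← val_coe_lt_one_iff Q]
      change (locW Q).valuation ((s : C) * z⁻¹) < 1
      rw [map_mul]
      exact lt_of_le_of_lt (mul_le_of_le_one_left'
        (((locW Q).valuation_le_one_iff _).2 (coe_mem_locW Q s))) h2
    rw [hmem] at h3
    change V.valuation ((s : C) * z⁻¹) < 1 at h3
    rw [map_mul, hunit s hs, one_mul, map_inv₀] at h3
    have h4 : V.valuation z ≤ 1 := (V.valuation_le_one_iff _).2 hz
    have h5 : V.valuation z ≠ 0 := (_root_.map_ne_zero _).2 h0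
    exact absurd h3 (not_lt.2 ((one_le_inv₀ (zero_lt_iff.2 h5)).2 h4))

/-- **Block E1** with coefficients in a larger field. -/
theorem two_trans_dec {C : Type u} [Field C] [IsAlgClosed C] [CharZero C] {Λ : Subfield C}
    {t : C} (ht : Transcendental Λ t) {d : ℕ} (hd : 3 ≤ d)
    (hC : ∀ x : C, IsAlgebraic (Subfield.closure (Λ ∪ {t})) x)
    (W : ValuationSubring C)
    (hW : ∀ n : ℕ, n ≠ 0 → W.valuation (n : C) = 1)
    {K1 : Subfield C} (hK1 : Subfield.closure ((Λ : Set C) ∪ {t}) ≤ K1)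
    (hfix : ∀ (σ : C ≃+* C) (V : ValuationSubring C), (∀ x, σ x ∈ V ↔ x ∈ V) →
      (∀ x ∈ Λ, x ∈ W → x ∈ V) → (∀ x ∈ Λ, W.valuation x < 1 → V.valuation x < 1) → t ∈ V →
      (∀ x ∈ Subfield.closure ((Λ : Set C) ∪ {t}), σ x = x) → ∀ x ∈ K1, σ x = x)
    (c : Fin (d + 1) → C) (hcK : ∀ l, c l ∈ K1)
    (hval : ∀ V : ValuationSubring C, (∀ x ∈ Λ, x ∈ W → x ∈ V) →
      (∀ x ∈ Λ, W.valuation x < 1 → V.valuation x < 1) → t ∈ V →
      ∀ l : Fin (d + 1), V.valuation (c l - tgt d t (l : ℕ)) < 1)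
    {θ : Fin d → C} (hθ : Function.Injective θ)
    (hroot : ∀ i, ∑ l, c l * θ i ^ (l : ℕ) = 0)
    {i j i' j' : Fin d} (hij : i ≠ j) (hij' : i' ≠ j') :
    ∃ σ : C ≃+* C, (∀ x ∈ K1, σ x = x) ∧ σ (θ i) = θ i' ∧ σ (θ j) = θ j' := by
  classical
  set k : Subfield C := Subfield.closure ((Λ : Set C) ∪ {t}) with hk
  have hΛk : Λ ≤ k := fun x hx => Subfield.subset_closure (Or.inl hx)
  have htk : t ∈ k := Subfield.subset_closure (Or.inr rfl)
  let _ : Algebra Λ k := (Subfield.inclusion hΛk).toAlgebra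
  have hsc : IsScalarTower Λ k C := IsScalarTower.of_algebraMap_eq fun x => rfl
  let _ : Algebra k K1 := (Subfield.inclusion hK1).toAlgebra
  have hsc1 : IsScalarTower k K1 C := IsScalarTower.of_algebraMap_eq fun x => rfl
  let _ : Algebra Λ K1 := (Subfield.inclusion (hΛk.trans hK1)).toAlgebra
  have hsc2 : IsScalarTower Λ k K1 := IsScalarTower.of_algebraMap_eq fun x => rfl
  have hgal : IsGalois k C := isGalois_of_alg k hC
  have hgal1 : IsGalois K1 C := isGalois_of_alg K1 fun x => by
    have h1 := hC x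
    exact h1.extendScalars (S := K1) (algebraMap k K1).injective
  set OΛ : ValuationSubring Λ := W.comap (algebraMap Λ C) with hOΛ
  obtain ⟨O, hcore⟩ := exists_core_one k ht (fun x hx => hx) htk OΛ
  obtain ⟨Q, hQ, hA⟩ := exists_above (k := k) (C := C) (O := O)
  have hch : ∀ n : ℕ, n ≠ 0 → O.valuation (n : k) = 1 := fun n hn => hcore.val_natCast (by
    rw [comap_eq_one, map_natCast]; exact hW n hn)
  have hV1 : ∀ x ∈ Λ, x ∈ W → x ∈ locW Q := by
    intro x hx hxW
    rw [← (locW Q).valuation_le_one_iff]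
    have h6 : (⟨x, hx⟩ : Λ) ∈ OΛ := hxW
    have h7 := hcore.le _ h6
    exact locW_algebraMap_le ((O.valuation_le_one_iff _).2 h7)
  have hV2 : ∀ x ∈ Λ, W.valuation x < 1 → (locW Q).valuation x < 1 := by
    intro x hx hxW
    have h6 : OΛ.valuation (⟨x, hx⟩ : Λ) < 1 := (comap_lt_one _ _ _).2 hxW
    exact locW_algebraMap_lt Q hA (hcore.lt _ h6)
  have hV3 : t ∈ locW Q := by
    rw [← (locW Q).valuation_le_one_iff]
    exact locW_algebraMap_le (a := (⟨t, htk⟩ : k)) ((O.valuation_le_one_iff _).2 hcore.mem)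
  have hcore1 := core_extend (k1 := K1) Q hcore hA hch fun σ hσ x => by
    refine hfix σ.toRingEquiv (locW Q) (fun x => ?_) hV1 hV2 hV3
      (fun x hx => σ.commutes ⟨x, hx⟩) x x.2
    rw [← (locW Q).valuation_le_one_iff, ← (locW Q).valuation_le_one_iff]
    exact val_le_one_D Q hσ x
  set O1 : ValuationSubring K1 := (locW Q).comap (algebraMap K1 C) with hO1
  obtain ⟨Q1, hQ1, hA1⟩ := exists_above (k := K1) (C := C) (O := O1)
  have ha : ∀ l : Fin (d + 1), O1.valuation ((⟨c l, hcK l⟩ : K1) -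
      tgt d (algebraMap k K1 ⟨t, htk⟩) (l : ℕ)) < 1 := by
    intro l
    rw [hO1, comap_lt_one, map_sub]
    have h1 : algebraMap K1 C (tgt d (algebraMap k K1 ⟨t, htk⟩) (l : ℕ)) = tgt d t (l : ℕ) := by
      rw [tgt, tgt]
      split_ifs
      · rw [map_one]
      · rw [map_neg, map_one]
      · rw [map_neg]; rfl
      · rw [map_zero]
    rw [h1]
    exact hval (locW Q) hV1 hV2 hV3 l
  obtain ⟨-, -, h3⟩ := hcore1.two_trans Q1 (fun n hn => by
      rw [comap_eq_one, map_natCast]
      have h1 := (locW_algebraMap_eq_one Q hA (a := (n : k))).2 (hch n hn)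
      rwa [map_natCast] at h1) hA1 hd (a := fun l => ⟨c l, hcK l⟩) ha hθ hroot
  obtain ⟨σ, -, h4, h5⟩ := h3 i j i' j' hij hij'
  exact ⟨σ.toRingEquiv, fun x hx => σ.commutes ⟨x, hx⟩, h4, h5⟩

end RR
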