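import Pool.Agent.Helper37.UL.E7

/-!
# Passing to a subfield of the decomposition field
-/

universe u

namespace RR

open Polynomial IsLocalRing Pool.Agent.Helper91.Sect Pool.Agent.Helper37.UL

section

variable {Λ k C : Type u} [Field Λ] [Field k] [Field C] [Algebra Λ k] [Algebra k C]
  {OΛ : ValuationSubring Λ} {O : ValuationSubring k} {s : k}
  (Q : Ideal (integralClosure O C)) [hQ : Q.IsPrime]

/-- An integral element whose residue is fixed by the decomposition group is congruent to an
element of the ground field. -/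
theorem exists_cong_of_fixed [IsGalois k C] [IsAlgClosed C] (hA : Above Q)
    (hchar : ∀ n : ℕ, n ≠ 0 → O.valuation (n : k) = 1) {b : integralClosure O C}
    (hfix : ∀ σ : C ≃ₐ[k] C, InD Q σ → σ • b - b ∈ Q) :
    ∃ c : O, b - algebraMap O (integralClosure O C) c ∈ Q := by
  classical
  have hQm : Q.IsMaximal := above_isMaximal hA
  let _ : Field (integralClosure O C ⧸ Q) := Ideal.Quotient.field Q
  have hac : IsAlgClosed (integralClosure O C ⧸ Q) := isAlgClosed_quotient
  let _ : Algebra (ResidueField O) (integralClosure O C ⧸ Q) := (resHom hA).toAlgebra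
  have hmap : ∀ c : O, algebraMap (ResidueField O) (integralClosure O C ⧸ Q)
      (residue O c) = Ideal.Quotient.mk Q (algebraMap O (integralClosure O C) c) :=
    fun _ => rfl
  have hcomp : (algebraMap (ResidueField O) (integralClosure O C ⧸ Q)).comp (residue O) =
      (Ideal.Quotient.mk Q).comp (algebraMap O (integralClosure O C)) := rfl
  have halg : Algebra.IsAlgebraic (ResidueField O) (integralClosure O C ⧸ Q) := by
    refine ⟨fun x => ?_⟩
    obtain ⟨b, rfl⟩ := Ideal.Quotient.mk_surjective x
    have h1 : IsIntegral O b := Algebra.IsIntegral.isIntegral b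
    obtain ⟨g, hg, hgb⟩ := h1
    refine IsIntegral.isAlgebraic ⟨g.map (residue O), hg.map _, ?_⟩
    rw [eval₂_map, hcomp, ← hom_eval₂, hgb, map_zero]
  have hcl : IsAlgClosure (ResidueField O) (integralClosure O C ⧸ Q) := ⟨hac, halg⟩
  have hnorm : Normal (ResidueField O) (integralClosure O C ⧸ Q) := IsAlgClosure.normal _ _
  have hch0 : CharZero (ResidueField O) := by
    refine charZero_of_inj_zero fun n hn => ?_
    by_contra hne
    have h2 : residue O (n : O) = 0 := by rw [map_natCast]; exact hn
    rw [residue_eq_zero_iff, O.valuation_lt_one_iff] at h2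
    have h3 := hchar n hne
    have h4 : ((n : O) : k) = (n : k) := rfl
    rw [h4, h3] at h2
    exact lt_irrefl _ h2
  set x := Ideal.Quotient.mk Q b with hx
  have hxsep : IsSeparable (ResidueField O) x := (minpoly.irreducible
    (Algebra.IsIntegral.isIntegral (R := ResidueField O) x)).separable
  have hxbot : x ∈ (⊥ : Subalgebra (ResidueField O) (integralClosure O C ⧸ Q)) := by
    by_contra hcon
    rw [notMem_iff_exists_ne_and_isConjRoot hxsep (IsAlgClosed.splits _)] at hcon
    obtain ⟨y, hne, hy⟩ := hcon
    rw [isConjRoot_iff_exists_algEquiv] at hy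
    obtain ⟨φ, hφ⟩ := hy
    -- lift the inverse
    obtain ⟨σ, -, hσD, hσ⟩ := exists_lift (⊤ : Subgroup (C ≃ₐ[k] C)) isClosed_univ Q
      (φ.symm : (integralClosure O C ⧸ Q) ≃+* (integralClosure O C ⧸ Q)) (by
        intro b hb
        have h1 : ∀ g : C ≃ₐ[k] C, g (b : C) = b := fun g =>
          congrArg Subtype.val (hb g (Subgroup.mem_top g))
        obtain ⟨c, hc⟩ := (InfiniteGalois.mem_range_algebraMap_iff_fixed (k := k) (b : C)).2 h1
        have hcO : c ∈ O := by
          have h2 : IsIntegral O (algebraMap k C c) := by rw [hc]; exact b.2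
          have h3 : IsIntegral O c := by
            rwa [isIntegral_algebraMap_iff (algebraMap k C).injective] at h2
          obtain ⟨c', hc'⟩ := IsIntegrallyClosed.algebraMap_eq_of_integral h3
          rw [← hc']; exact c'.2
        have h4 : b = algebraMap O (integralClosure O C) ⟨c, hcO⟩ := Subtype.ext hc.symm
        rw [h4, ← hmap]
        exact φ.symm.commutes _)
    have h1 : Ideal.Quotient.mk Q (σ • b) = φ.symm x := hσ b
    have h2 : Ideal.Quotient.mk Q (σ • b) = x := by
      rw [hx, Ideal.Quotient.eq]
      exact hfix σ hσD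
    rw [h2] at h1
    apply hne
    have h3 : φ x = x := by
      conv_lhs => rw [h1]
      exact φ.apply_symm_apply x
    have h4 : φ.symm x = y := by rw [← hφ]; exact φ.symm_apply_apply y
    rw [← h4, ← h1]
  rw [Algebra.mem_bot] at hxbot
  obtain ⟨c, hc⟩ := hxbot
  obtain ⟨c', rfl⟩ := residue_surjective c
  refine ⟨c', ?_⟩
  rw [← Ideal.Quotient.eq, ← hmap, hc]

/-- An element of the valuation ring whose residue is fixed by the decomposition group is
congruent to an element of the ground field. -/
theorem exists_cong_of_fixed' [IsGalois k C] [IsAlgClosed C] (hA : Above Q)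
    (hchar : ∀ n : ℕ, n ≠ 0 → O.valuation (n : k) = 1) {z : C} (hz : z ∈ locW Q)
    (hfix : ∀ σ : C ≃ₐ[k] C, InD Q σ → σ z = z) :
    ∃ c ∈ O, (locW Q).valuation (z - algebraMap k C c) < 1 := by
  classical
  have hQm : Q.IsMaximal := above_isMaximal hA
  obtain ⟨t, htQ, hint⟩ := (mem_locW (Q := Q)).1 hz
  let b : integralClosure O C := ⟨(t : C) * z, hint⟩
  obtain ⟨t', ht'⟩ := hQm.exists_inv htQ
  obtain ⟨i, hi, hti⟩ := ht'
  -- `z ≡ t' b`
  have ht1 : (locW Q).valuation ((t' * t : integralClosure O C) - 1 : C) < 1 := by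
    have h1 : ((t' * t : integralClosure O C) : C) - 1 = ((t' * t - 1 : integralClosure O C) : C) := by
      push_cast; rfl
    rw [h1, val_coe_lt_one_iff]
    have h2 : t' * t - 1 = -i := by
      rw [← hti]; ring
    rw [h2]
    exact Q.neg_mem hi
  have hzle : (locW Q).valuation z ≤ 1 := ((locW Q).valuation_le_one_iff _).2 hz
  have hzb : (locW Q).valuation (z - ((t' * b : integralClosure O C) : C)) < 1 := by
    have h1 : z - ((t' * b : integralClosure O C) : C) =
        -((((t' * t : integralClosure O C) : C) - 1) * z) := by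
      have h2 : ((t' * b : integralClosure O C) : C) = (t' : C) * ((t : C) * z) := rfl
      have h3 : ((t' * t : integralClosure O C) : C) = (t' : C) * (t : C) := rfl
      rw [h2, h3]; ring
    rw [h1, Valuation.map_neg, map_mul]
    exact lt_of_le_of_lt (mul_le_of_le_one_right' hzle) ht1
  obtain ⟨c, hc⟩ := exists_cong_of_fixed Q hA hchar (b := t' * b) (by
    intro σ hσ
    rw [← val_coe_lt_one_iff Q]
    have h1 : ((σ • (t' * b) - t' * b : integralClosure O C) : C) =
        (σ (((t' * b : integralClosure O C) : C) - z)) - (((t' * b : integralClosure O C) : C) - z) := by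
      rw [map_sub, hfix σ hσ]
      have h2 : ((σ • (t' * b) - t' * b : integralClosure O C) : C) =
        σ ((t' * b : integralClosure O C) : C) - ((t' * b : integralClosure O C) : C) := rfl
      rw [h2]; ring
    rw [h1]
    have h3 : (locW Q).valuation (((t' * b : integralClosure O C) : C) - z) < 1 := by
      rw [← Valuation.map_neg, neg_sub]; exact hzb
    refine lt_of_le_of_lt (Valuation.map_sub _ _ _) (max_lt ?_ h3)
    rw [val_InD Q hσ]
    exact h3)
  refine ⟨c, c.2, ?_⟩
  have h1 : z - algebraMap k C c = (z - ((t' * b : integralClosure O C) : C)) +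
      ((t' * b - algebraMap O (integralClosure O C) c : integralClosure O C) : C) := by
    have h2 : ((t' * b - algebraMap O (integralClosure O C) c : integralClosure O C) : C) =
      ((t' * b : integralClosure O C) : C) - algebraMap k C c := rfl
    rw [h2]; ring
  rw [h1]
  refine lt_of_le_of_lt (Valuation.map_add _ _ _) (max_lt hzb ?_)
  rw [val_coe_lt_one_iff]
  exact hc

/-- **The structure `Core` passes to subfields of the decomposition field.** -/
theorem core_extend [IsGalois k C] [IsAlgClosed C] (h : Core OΛ O s) (hA : Above Q)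
    (hchar : ∀ n : ℕ, n ≠ 0 → O.valuation (n : k) = 1)
    {k1 : Type u} [Field k1] [Algebra k k1] [Algebra k1 C] [IsScalarTower k k1 C]
    [Algebra Λ k1] [IsScalarTower Λ k k1]
    (hfix : ∀ σ : C ≃ₐ[k] C, InD Q σ → ∀ x : k1, σ (algebraMap k1 C x) = algebraMap k1 C x) :
    Core OΛ ((locW Q).comap (algebraMap k1 C)) (algebraMap k k1 s) := by
  have hkk : ∀ x : k, algebraMap k1 C (algebraMap k k1 x) = algebraMap k C x := fun x =>
    (IsScalarTower.algebraMap_apply k k1 C x).symm
  have hev : ∀ g : OΛ[X], ev OΛ (algebraMap k k1 s) g = algebraMap k k1 (ev OΛ s g) := by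
    intro g
    change eval₂ _ _ g = algebraMap k k1 (eval₂ _ _ g)
    rw [hom_eval₂]
    congr 1
    ext c
    exact IsScalarTower.algebraMap_apply Λ k k1 (c : Λ)
  refine ⟨fun c hc => ?_, fun c hc => ?_, ?_, fun g hg => ?_, fun z hz => ?_⟩
  · rw [ValuationSubring.mem_comap, IsScalarTower.algebraMap_apply Λ k k1, hkk,
      ← (locW Q).valuation_le_one_iff]
    exact locW_algebraMap_le ((O.valuation_le_one_iff _).2 (h.le c hc))
  · rw [comap_lt_one, IsScalarTower.algebraMap_apply Λ k k1, hkk]
    exact locW_algebraMap_lt Q hA (h.lt c hc)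
  · rw [ValuationSubring.mem_comap, hkk, ← (locW Q).valuation_le_one_iff]
    exact locW_algebraMap_le ((O.valuation_le_one_iff _).2 h.mem)
  · rw [hev, comap_eq_one, hkk, locW_algebraMap_eq_one Q hA]
    exact h.gauss g hg
  · rw [ValuationSubring.mem_comap] at hz
    obtain ⟨c, hc, hzc⟩ := exists_cong_of_fixed' Q hA hchar hz (fun σ hσ => hfix σ hσ z)
    obtain ⟨f, g, hg, hfg⟩ := h.rat c hc
    refine ⟨f, g, hg, ?_⟩
    rw [comap_lt_one, map_sub, map_mul, hev, hev, hkk, hkk]
    have h1 : algebraMap k1 C z * algebraMap k C (ev OΛ s g) - algebraMap k C (ev OΛ s f) =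
        (algebraMap k1 C z - algebraMap k C c) * algebraMap k C (ev OΛ s g) +
        algebraMap k C (c * ev OΛ s g - ev OΛ s f) := by
      rw [map_sub, map_mul]; ring
    rw [h1]
    refine lt_of_le_of_lt (Valuation.map_add _ _ _) (max_lt ?_ (locW_algebraMap_lt Q hA hfg))
    rw [map_mul, (locW_algebraMap_eq_one Q hA).2 (h.gauss g hg), mul_one]
    exact hzc

end

end RR
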