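import Pool.Agent.Helper10.RR.Dec2
import Pool.Agent.Helper37.TH.V2

/-!
# The degenerations in an arbitrary algebraically closed field
-/

universe u

namespace RR

open Polynomial IsLocalRing Pool.Agent.Helper91.Sect Pool.Agent.Helper37.UL TH

/-- valuation rings extend to larger fields -/
theorem exists_ext_val {C S : Type*} [Field C] [Field S] (i : C →+* S) (V : ValuationSubring C) :
    ∃ V' : ValuationSubring S, V'.comap i = V := by
  obtain ⟨V', h1, h2⟩ := IsLocalRing.exists_factor_valuationRing (i.comp V.subtype)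
  refine ⟨V', ?_⟩
  ext x
  rw [ValuationSubring.mem_comap]
  constructor
  · intro hx
    rcases V.mem_or_inv_mem x with h | h
    · exact h
    · by_cases hx0 : x = 0
      · rw [hx0]; exact V.zero_mem
      have h3 : IsUnit ((i.comp V.subtype).codRestrict V'.toSubring h1 ⟨x⁻¹, h⟩) := by
        refine IsUnit.of_mul_eq_one (⟨i x, hx⟩ : V'.toSubring) (Subtype.ext ?_)
        change i x⁻¹ * i x = 1
        rw [← map_mul, inv_mul_cancel₀ hx0, map_one]
      have h4 := h2.map_nonunit _ h3
      obtain ⟨y, hy⟩ := h4.exists_right_inv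
      have h5 : x⁻¹ * (y : C) = 1 := congrArg Subtype.val hy
      have h6 : (y : C) = x := by
        field_simp at h5
        exact h5
      rw [← h6]; exact y.2
  · intro hx
    exact h1 ⟨x, hx⟩

/-- **Block E1** in an arbitrary algebraically closed field. -/
theorem two_trans_gen {S : Type u} [Field S] [IsAlgClosed S] [CharZero S] {A : Subfield S}
    {τ : Fin 1 → S} (hτ : AlgebraicIndependent A τ) {d : ℕ} (hd : 3 ≤ d)
    (c : Fin (d + 1) → S) (W : ValuationSubring S)
    (hW : ∀ n : ℕ, n ≠ 0 → W.valuation (n : S) = 1)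
    {kc : Subfield S} (hkc : kc ≤ A) (hkcW : ∀ x ∈ kc, x ∈ W) {v q : S} (hvA : v ∈ A)
    (hv : W.valuation v < 1) (hq : SplitAt kc (τ 0 * v) q)
    (hc : ∀ i, c i ∈ Subfield.closure ((gen A τ : Set S) ∪ {q}))
    (hlead : c (Fin.last d) ≠ 0)
    (hval : ∀ V : ValuationSubring S, (∀ x ∈ A, x ∈ W → x ∈ V) →
      (∀ x ∈ A, W.valuation x < 1 → V.valuation x < 1) → τ 0 ∈ V →
      ∀ l : Fin (d + 1), V.valuation (c l - tgt d (τ 0) (l : ℕ)) < 1)
    {θ : Fin d → S} (hθ : Function.Injective θ)
    (hroot : ∀ i, ∑ l, c l * θ i ^ (l : ℕ) = 0)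
    {i j i' j' : Fin d} (hij : i ≠ j) (hij' : i' ≠ j') :
    ∃ σ : S ≃+* S, (∀ x ∈ gen A τ, σ x = x) ∧ σ (θ i) = θ i' ∧ σ (θ j) = θ j' ∧
      σ q = q := by
  classical
  set t : S := τ 0 with ht
  have hτt : Set.range τ = {t} := by
    ext x
    constructor
    · rintro ⟨i, rfl⟩
      rw [Subsingleton.elim i 0]; rfl
    · rintro rfl
      exact ⟨0, rfl⟩
  set K : Subfield S := gen A τ with hK
  have hKc : K = Subfield.closure ((A : Set S) ∪ {t}) := by rw [hK, gen, hτt]
  have hAK : A ≤ K := le_gen
  have htK : t ∈ K := gen_mem 0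
  obtain ⟨t', ht'⟩ := exists_inc_of_mem htK
  have htr : Transcendental A t := hτ.transcendental 0
  have htr' : Transcendental (down K A) t' := by
    rintro ⟨p, hp0, hp⟩
    let f : down K A →+* A :=
      ((inc K).comp (down K A).subtype).codRestrict A.toSubring (fun x => x.2)
    apply htr
    refine ⟨p.map f, (Polynomial.map_ne_zero_iff f.injective).2 hp0, ?_⟩
    have h1 := congrArg (inc K) hp
    rw [map_zero, aeval_def, hom_eval₂, ht'] at h1
    rw [aeval_def, eval₂_map, ← h1]
    rfl
  have himg : inc K '' ((down K A : Set _) ∪ {t'}) = (A : Set S) ∪ {t} := by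
    rw [Set.image_union, Set.image_singleton, ht']
    congr 1
    ext x
    constructor
    · rintro ⟨y, hy, rfl⟩
      exact hy
    · intro hx
      exact ⟨toDown hAK ⟨x, hx⟩, (toDown hAK ⟨x, hx⟩).2, rfl⟩
  set K' : Subfield (algebraicClosure K S) := Subfield.closure ((down K A : Set _) ∪ {t'}) with hK'
  have hlift : ∀ x ∈ K, ∃ y ∈ K', inc K y = x := by
    intro x hx
    rw [hKc] at hx
    exact exists_of_mem_closure himg hx
  have hK'K : ∀ y ∈ K', inc K y ∈ K := by
    intro y hy
    have h1 : inc K y ∈ K'.map (inc K) := ⟨y, hy, rfl⟩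
    rw [hK', RingHom.map_field_closure, himg, ← hKc] at h1
    exact h1
  have hC : ∀ x : algebraicClosure K S, IsAlgebraic K' x := isAlgebraic_down hlift
  have hkcK : kc ≤ K := hkc.trans hAK
  have hqalg : IsAlgebraic K q := hq.isAlgebraic hkcK (K.mul_mem htK (hAK hvA))
  obtain ⟨q', hq'⟩ := exists_inc hqalg
  set K1 : Subfield S := Subfield.closure ((K : Set S) ∪ {q}) with hK1
  set k1 : Subfield (algebraicClosure K S) := Subfield.closure ((K' : Set _) ∪ {q'}) with hk1
  have himg1 : inc K '' ((K' : Set _) ∪ {q'}) = (K : Set S) ∪ {q} := by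
    rw [Set.image_union, Set.image_singleton, hq']
    congr 1
    ext x
    constructor
    · rintro ⟨y, hy, rfl⟩
      exact hK'K y hy
    · intro hx
      obtain ⟨y, hy, rfl⟩ := hlift x hx
      exact ⟨y, hy, rfl⟩
  have hlift1 : ∀ x ∈ K1, ∃ y ∈ k1, inc K y = x := fun x hx => exists_of_mem_closure himg1 hx
  choose c' hc'k hc' using fun l => hlift1 _ (hc l)
  have hinj := (inc K).injective
  have hac : IsAlgClosed (algebraicClosure K S) := IsAlgClosure.isAlgClosed K
  -- roots are algebraic
  have hθalg : ∀ i, IsAlgebraic K (θ i) := by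
    intro i
    have h1 : IsAlgebraic (algebraicClosure K S) (θ i) := by
      refine ⟨∑ l : Fin (d + 1), Polynomial.C (c' l) * X ^ (l : ℕ), ?_, ?_⟩
      · intro h0
        have h1 := congrArg (fun P => P.coeff d) h0
        simp only [finsetSum_coeff, coeff_C_mul_X_pow, coeff_zero] at h1
        rw [Finset.sum_eq_single (Fin.last d)] at h1
        · rw [if_pos (Fin.val_last d).symm] at h1
          apply hlead
          rw [← hc', h1, map_zero]
        · intro l _ hl
          rw [if_neg]
          intro h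
          exact hl (Fin.ext (by simpa using h.symm))
        · intro h; exact absurd (Finset.mem_univ _) h
      · rw [map_sum, ← hroot i]
        refine Finset.sum_congr rfl fun l _ => ?_
        rw [map_mul, aeval_C, map_pow, aeval_X]
        congr 1
        exact hc' l
    exact h1.restrictScalars K
  choose θ' hθ' using fun i => exists_inc (hθalg i)
  have htgt : ∀ l : ℕ, inc K (tgt d t' l) = tgt d t l := by
    intro l
    rw [tgt, tgt]
    split_ifs
    · rw [map_one]
    · rw [map_neg, map_one]
    · rw [map_neg, ht']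
    · rw [map_zero]
  obtain ⟨σ, hσ1, hσi, hσj⟩ := two_trans_dec (C := algebraicClosure K S) htr' hd hC
    (W.comap (inc K)) (fun n hn => by
      rw [comap_eq_one, map_natCast]; exact hW n hn)
    (K1 := k1) (fun x hx => Subfield.subset_closure (Or.inl hx)) (by
      intro σ V hσV hV1 hV2 hV3 hσk x hx
      have h1 : k1 ≤ (RingEquiv.toRingHom σ).eqLocusField (RingHom.id _) := by
        rw [hk1, Subfield.closure_le]
        rintro y (hy | hy)
        · exact hσk y hy
        · change σ y = y
          rw [Set.mem_singleton_iff.1 hy]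
          have hv' : V.valuation (toDown hAK ⟨v, hvA⟩ : down K A) < 1 :=
            hV2 _ (Subtype.coe_prop _) ((comap_lt_one _ _ _).2 hv)
          have hT' : inc K (t' * (toDown hAK ⟨v, hvA⟩ : down K A)) = t * v := by
            rw [map_mul, ht']
            rfl
          refine invis V (kc := down K kc) (fun x hx => hV1 x (hkc hx) (hkcW _ hx)) ?_
            (hq.down hkcK hT' hq') σ hσV (fun x hx => hσk x
              (Subfield.subset_closure (Or.inl (hkc hx)))) ?_
          · rw [map_mul]
            exact lt_of_le_of_lt (mul_le_of_le_one_left' ((V.valuation_le_one_iff _).2 hV3)) hv'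
          · rw [map_mul, hσk t' (Subfield.subset_closure (Or.inr rfl)),
              hσk _ (Subfield.subset_closure (Or.inl (Subtype.coe_prop _)))]
      exact h1 hx)
    c' hc'k (by
      intro V hV1 hV2 hV3 l
      obtain ⟨V', rfl⟩ := exists_ext_val (inc K) V
      rw [comap_lt_one, map_sub, hc', htgt]
      refine hval V' (fun x hx hxW => ?_) (fun x hx hxW => ?_) ?_ l
      · exact hV1 (toDown hAK ⟨x, hx⟩ : down K A) (Subtype.coe_prop _) hxW
      · exact (comap_lt_one _ _ _).1 (hV2 (toDown hAK ⟨x, hx⟩ : down K A) (Subtype.coe_prop _)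
          ((comap_lt_one _ _ _).2 hxW))
      · have h1 : inc K t' ∈ V' := hV3
        rwa [ht'] at h1)
    (θ := θ') (fun a b hab => hθ (by rw [← hθ' a, ← hθ' b, hab]))
    (fun i => by
      apply (inc K).injective
      rw [map_sum, map_zero, ← hroot i]
      refine Finset.sum_congr rfl fun l _ => ?_
      rw [map_mul, map_pow, hθ', hc'])
    hij hij'
  obtain ⟨τ', hτ'⟩ := extend_aut (K := K) (C := S) σ
  have hτ'' : ∀ a, τ' (inc K a) = inc K (σ a) := hτ'
  refine ⟨τ', ?_, ?_, ?_, ?_⟩
  · intro x hx
    obtain ⟨y, hy, rfl⟩ := hlift x hx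
    rw [hτ'', hσ1 y (Subfield.subset_closure (Or.inl hy))]
  · rw [← hθ' i, hτ'', hσi, hθ']
  · rw [← hθ' j, hτ'', hσj, hθ']
  · rw [← hq', hτ'', hσ1 q' (Subfield.subset_closure (Or.inr rfl))]

end RR
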