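import Mathlib

/-!
# Linear disjointness over a relatively algebraically closed field
-/

universe u v w

namespace RR

open Polynomial IntermediateField

section

variable {L : Type u} {Fs : Type v} {Om : Type w} [Field L] [CharZero L] [Field Fs] [Field Om]
  [Algebra L Fs] [Algebra Fs Om] [Algebra L Om] [IsScalarTower L Fs Om]

omit [CharZero L] in
theorem minpoly_map_of_relClosed (hrel : ∀ x : Fs, IsAlgebraic L x → x ∈ Set.range (algebraMap L Fs))
    {p : Om} (hp : IsAlgebraic L p) :
    minpoly Fs p = (minpoly L p).map (algebraMap L Fs) := by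
  have hpi : IsIntegral L p := hp.isIntegral
  have hpi' : IsIntegral Fs p := hpi.tower_top
  have hm := minpoly.monic hpi
  have hm' := minpoly.monic hpi'
  have hdvd : minpoly Fs p ∣ (minpoly L p).map (algebraMap L Fs) := by
    apply minpoly.dvd
    rw [aeval_map_algebraMap, minpoly.aeval]
  have h1 := integralClosure.mem_lifts_of_monic_of_dvd_map Fs hm hm' hdvd
  have h2 : minpoly Fs p ∈ lifts (algebraMap L Fs) := by
    rw [lifts_iff_coeff_lifts] at h1 ⊢
    intro n
    obtain ⟨y, hy⟩ := h1 n
    rw [← hy]
    exact hrel _ (IsIntegral.isAlgebraic y.2)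
  obtain ⟨g, hg, hdeg, hgm⟩ := lifts_and_natDegree_eq_and_monic h2 hm'
  have h3 : minpoly L p ∣ g := by
    apply minpoly.dvd
    have h4 : aeval p (g.map (algebraMap L Fs)) = 0 := by rw [hg]; exact minpoly.aeval _ _
    rwa [aeval_map_algebraMap] at h4
  refine eq_of_monic_of_associated hm' (hm.map _) (associated_of_dvd_dvd hdvd ?_)
  rw [← hg]
  exact Polynomial.map_dvd _ h3

theorem finrank_adjoin_eq (hrel : ∀ x : Fs, IsAlgebraic L x → x ∈ Set.range (algebraMap L Fs))
    {S : Set Om} (hSf : S.Finite) (hS : ∀ x ∈ S, IsAlgebraic L x) :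
    Module.finrank L (adjoin L S) = Module.finrank Fs (adjoin Fs S) := by
  have := hSf.to_subtype
  have hfd : FiniteDimensional L (adjoin L S) := finiteDimensional_adjoin fun x hx =>
    (hS x hx).isIntegral
  obtain ⟨p, hp⟩ := Field.exists_primitive_element L (adjoin L S)
  have hp1 : adjoin L {(p : Om)} = adjoin L S := by
    rw [← lift_adjoin_simple, hp, lift_top]
  have hpalg : IsAlgebraic L (p : Om) := by
    have h1 : IsAlgebraic L p := Algebra.IsAlgebraic.isAlgebraic p
    exact (isAlgebraic_algebraMap_iff (A := Om) (algebraMap (adjoin L S) Om).injective).2 h1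
  have hp2 : adjoin Fs {(p : Om)} = adjoin Fs S := by
    apply le_antisymm
    · rw [adjoin_simple_le_iff]
      have h1 : adjoin L S ≤ (adjoin Fs S).restrictScalars L := by
        rw [adjoin_le_iff]
        exact subset_adjoin Fs S
      exact h1 p.2
    · rw [adjoin_le_iff]
      intro x hx
      have h1 : adjoin L {(p : Om)} ≤ (adjoin Fs {(p : Om)}).restrictScalars L := by
        rw [adjoin_le_iff]
        exact subset_adjoin Fs _
      apply h1
      rw [hp1]
      exact subset_adjoin L S hx
  rw [← hp1, ← hp2, adjoin.finrank hpalg.isIntegral, adjoin.finrank hpalg.isIntegral.tower_top,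
    minpoly_map_of_relClosed hrel hpalg, natDegree_map]

/-- **Linear disjointness.** -/
theorem mem_adjoin_of_relClosed
    (hrel : ∀ x : Fs, IsAlgebraic L x → x ∈ Set.range (algebraMap L Fs))
    {S : Set Om} (hS : ∀ x ∈ S, IsAlgebraic L x) {b : Om} (hb : IsAlgebraic L b)
    (hmem : b ∈ adjoin Fs S) : b ∈ adjoin L S := by
  classical
  obtain ⟨T, hTS, hbT⟩ := exists_finset_of_mem_adjoin hmem
  have hTf : (T : Set Om).Finite := T.finite_toSet
  have hT : ∀ x ∈ (T : Set Om), IsAlgebraic L x := fun x hx => hS x (hTS hx)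
  have hT' : ∀ x ∈ insert b (T : Set Om), IsAlgebraic L x := by
    intro x hx
    rcases hx with rfl | hx
    · exact hb
    · exact hT x hx
  have h1 := finrank_adjoin_eq hrel hTf hT
  have h2 := finrank_adjoin_eq hrel (hTf.insert b) hT'
  have h3 : adjoin Fs (insert b (T : Set Om)) = adjoin Fs (T : Set Om) := by
    apply le_antisymm
    · rw [adjoin_le_iff]
      rintro x (rfl | hx)
      · exact hbT
      · exact subset_adjoin Fs _ hx
    · exact adjoin.mono Fs _ _ (Set.subset_insert _ _)
  have := (hTf.insert b).to_subtype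
  have hfd : FiniteDimensional L (adjoin L (insert b (T : Set Om))) :=
    finiteDimensional_adjoin fun x hx => (hT' x hx).isIntegral
  have h4 : adjoin L (T : Set Om) = adjoin L (insert b (T : Set Om)) := by
    refine eq_of_le_of_finrank_eq (adjoin.mono L _ _ (Set.subset_insert _ _)) ?_
    rw [h1, h2, h3]
  have h5 : b ∈ adjoin L (T : Set Om) := by
    rw [h4]
    exact subset_adjoin L _ (Set.mem_insert _ _)
  exact adjoin.mono L _ _ hTS h5

end

end RR
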