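import Pool.Agent.Helper10.RR.CurveW

/-!
# Linear substitutions
-/

universe u v

namespace TH

open Polynomial

theorem SplitW.subst {S : Type u} [Field S] {kc : Subfield S} {T q : S} {m : ℕ}
    {w : Fin (m + 1) → S} (H : SplitW kc T q w) {o : Fin (m + 1)} (ho : o ≠ 0) {c : S}
    (hc : c ∈ kc) : SplitW kc T q (fun e => if e = o then w e - c * w 0 else w e) := by
  classical
  obtain ⟨e, P, r, h, R, h1, h2, h3, h4, h5, h6⟩ := H
  refine ⟨e, P, r, h, fun l => if l = o then R l - C (C ⟨c, hc⟩) * R 0 else R l, h1, h2, h3, h4,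
    fun l => ?_, fun j => ?_⟩
  · by_cases hl : l = o
    · simp only [if_pos hl]
      rw [eval₂_sub, eval₂_mul, eval₂_C, ← h5 l, ← h5 0]
      have h7 : (aeval T : kc[X] →ₐ[kc] S).toRingHom (C ⟨c, hc⟩) = c := by
        change aeval T (C (⟨c, hc⟩ : kc)) = c
        rw [aeval_C]; rfl
      rw [h7]
      ring
    · simp only [if_neg hl]
      exact h5 l
  · simp only [if_neg (Ne.symm ho)]
    exact h6 j

end TH

namespace RR

open Polynomial UL

section

variable {R : Type*} [CommRing R] {d m : ℕ}

/-- the substitution -/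
def subV (o : Fin (m + 1)) (c : R) (a : Fin (d + 1) × Fin (m + 1) → R)
    (q : Fin (d + 1) × Fin (m + 1)) : R :=
  if q.2 = 0 then a q + c * a (q.1, o) else a q

end

section

variable {F : Type u} [Field F] {d m : ℕ}

/-- the substitution for polynomials -/
noncomputable def subHom (d m : ℕ) (o : Fin (m + 1)) (c : F) :
    MvPolynomial (Fin (d + 1) × Fin (m + 1)) F →ₐ[F] MvPolynomial (Fin (d + 1) × Fin (m + 1)) F :=
  MvPolynomial.aeval (subV o (MvPolynomial.C c) (fun q => MvPolynomial.X q))

lemma subHom_comp (o : Fin (m + 1)) (ho : o ≠ 0) (c : F) :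
    (subHom d m o c).comp (subHom d m o (-c)) = AlgHom.id F _ := by
  apply MvPolynomial.algHom_ext
  intro q
  rw [AlgHom.comp_apply]
  unfold subHom
  rw [MvPolynomial.aeval_X]
  unfold subV
  by_cases hq : q.2 = 0
  · rw [if_pos hq]
    rw [map_add, map_mul, MvPolynomial.aeval_X, MvPolynomial.aeval_X, MvPolynomial.aeval_C,
      if_pos hq, if_neg ho, AlgHom.id_apply, MvPolynomial.algebraMap_eq, MvPolynomial.C_neg]
    ring
  · rw [if_neg hq, MvPolynomial.aeval_X, if_neg hq, AlgHom.id_apply]

/-- the substitution is an automorphism -/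
noncomputable def subE (d m : ℕ) (o : Fin (m + 1)) (ho : o ≠ 0) (c : F) :
    MvPolynomial (Fin (d + 1) × Fin (m + 1)) F ≃ₐ[F] MvPolynomial (Fin (d + 1) × Fin (m + 1)) F :=
  AlgEquiv.ofAlgHom (subHom d m o c) (subHom d m o (-c)) (subHom_comp o ho c) (by
    have h := subHom_comp (d := d) o ho (-c)
    rwa [neg_neg] at h)

lemma eval_subE (o : Fin (m + 1)) (ho : o ≠ 0) (c : F) (a : Fin (d + 1) × Fin (m + 1) → F)
    (Ψ : MvPolynomial (Fin (d + 1) × Fin (m + 1)) F) :
    MvPolynomial.eval a (subE d m o ho c Ψ) = MvPolynomial.eval (subV o c a) Ψ := by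
  have h : ((MvPolynomial.aeval a : MvPolynomial (Fin (d + 1) × Fin (m + 1)) F →ₐ[F] F)).comp
      (subHom d m o c) = MvPolynomial.aeval (subV o c a) := by
    apply MvPolynomial.algHom_ext
    intro q
    rw [AlgHom.comp_apply]
    unfold subHom
    rw [MvPolynomial.aeval_X, MvPolynomial.aeval_X]
    unfold subV
    split_ifs
    · rw [map_add, map_mul, MvPolynomial.aeval_X, MvPolynomial.aeval_X, MvPolynomial.aeval_C]
      rfl
    · rw [MvPolynomial.aeval_X]
  have h2 := DFunLike.congr_fun h Ψ
  rw [AlgHom.comp_apply] at h2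
  exact h2

theorem thin_subst {A : Set (Fin (d + 1) × Fin (m + 1) → F)} (hA : IsThin A) {o : Fin (m + 1)}
    (ho : o ≠ 0) (c : F) : IsThin {a | subV o c a ∈ A} :=
  hA.comap (subE d m o ho c).toRingEquiv (subV o c) (fun a Ψ => eval_subE o ho c a Ψ)

variable {k : Type u} [Field k] [Algebra F k]

/-- the curve after the substitution -/
theorem curveW_subst (w : Fin (m + 1) → k) {o : Fin (m + 1)} (ho : o ≠ 0) (c : F)
    (a : Fin (d + 1) × Fin (m + 1) → F) :
    curveW (fun e => if e = o then w e - algebraMap F k c * w 0 else w e) (subV o c a) =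
      curveW w a := by
  classical
  unfold curveW
  refine Finset.sum_congr rfl fun i _ => ?_
  congr 2
  have h1 : ∀ e : Fin (m + 1), algebraMap F k (subV o c a (i, e)) *
      (if e = o then w e - algebraMap F k c * w 0 else w e) = algebraMap F k (a (i, e)) * w e +
      ((if e = 0 then algebraMap F k c * algebraMap F k (a (i, o)) * w 0 else 0) -
      (if e = o then algebraMap F k c * algebraMap F k (a (i, o)) * w 0 else 0)) := by
    intro e
    unfold subV
    by_cases he : e = 0
    · subst he
      simp only [if_true, if_neg (Ne.symm ho), map_add, map_mul]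
      ring
    · by_cases he' : e = o
      · subst he'
        simp only [if_true, if_neg he]
        ring
      · simp only [if_neg he, if_neg he']
        ring
  rw [Finset.sum_congr rfl fun e _ => h1 e, Finset.sum_add_distrib, Finset.sum_sub_distrib,
    Finset.sum_ite_eq', Finset.sum_ite_eq', if_pos (Finset.mem_univ _), if_pos (Finset.mem_univ _),
    sub_self, add_zero]

/-- reindexing -/
theorem curveW_reindex (w : Fin (m + 1) → k) (g : Fin (m + 1) ≃ Fin (m + 1))
    (a : Fin (d + 1) × Fin (m + 1) → F) :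
    curveW (w ∘ g) (a ∘ (Equiv.prodCongr (Equiv.refl (Fin (d + 1))) g)) = curveW w a := by
  unfold curveW
  refine Finset.sum_congr rfl fun i _ => ?_
  congr 2
  exact Fintype.sum_equiv g _ _ fun e => rfl

end

end RR
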