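import Pool.Agent.Helper10.UL.SplitW
import Pool.Agent.Helper37.TH.V3

/-!
# Values of the elements `w l`
-/

universe u w

namespace TH

open Polynomial

variable {S : Type u} [Field S] {kc : Subfield S} {T q : S} {m : ℕ} {w : Fin (m + 1) → S}

/-- the elements are regular, and the first one is a unit -/
theorem SplitW.val (H : SplitW kc T q w) (V : ValuationSubring S) (hkc : ∀ x ∈ kc, x ∈ V)
    (hT : V.valuation T < 1) : (∀ l, w l ∈ V) ∧ V.valuation (w 0) = 1 := by
  classical
  obtain ⟨e, P, r, h, R, hr, hr0, hq, hh, hR, hR0⟩ := H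
  have hTV : T ∈ V := (V.valuation_le_one_iff _).1 hT.le
  have hcV : ∀ c : kc, (c : S) ∈ V := fun c => hkc _ c.2
  have hc1 : ∀ c : kc, c ≠ 0 → V.valuation (c : S) = 1 := by
    intro c hc
    have h1 : V.valuation (c : S) ≤ 1 := (V.valuation_le_one_iff _).2 (hcV c)
    have h2 : V.valuation ((c⁻¹ : kc) : S) ≤ 1 := (V.valuation_le_one_iff _).2 (hcV _)
    have h3 : ((c⁻¹ : kc) : S) = (c : S)⁻¹ := rfl
    rw [h3, map_inv₀] at h2
    have h4 : V.valuation (c : S) ≠ 0 := (_root_.map_ne_zero _).2 (fun h0 => hc (Subtype.ext h0))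
    exact le_antisymm h1 ((inv_le_one₀ (zero_lt_iff.2 h4)).1 h2)
  have hPV : ∀ p : kc[X], aeval T p ∈ V := by
    intro p
    rw [aeval_eq_sum_range]
    refine sum_mem fun l _ => ?_
    rw [Algebra.smul_def]
    exact mul_mem (hcV _) (pow_mem hTV _)
  have hPc : ∀ p : kc[X], V.valuation (aeval T p - ((p.eval 0 : kc) : S)) < 1 := by
    intro p
    have h1 : aeval T p - ((p.eval 0 : kc) : S) = T * aeval T p.divX := by
      have h2 := congrArg (aeval T) (divX_mul_X_add p)
      rw [map_add, map_mul, aeval_X, aeval_C, coeff_zero_eq_eval_zero] at h2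
      rw [← h2]
      change _ + ((p.eval 0 : kc) : S) - _ = _
      ring
    rw [h1, map_mul]
    exact lt_of_le_of_lt (mul_le_of_le_one_right' ((V.valuation_le_one_iff _).2 (hPV _))) hT
  have hqV : q ∈ V := mem_of_monic V (fun i => hPV (P i)) hq
  have hq1 : V.valuation q ≤ 1 := (V.valuation_le_one_iff _).2 hqV
  -- the value of `h`
  have hunit : ∀ a b : S, V.valuation (a - b) < 1 → V.valuation b = 1 → V.valuation a = 1 := by
    intro a b h1 h2
    have h3 := Valuation.map_add_eq_of_lt_right V.valuation (x := a - b) (y := b)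
      (by rw [h2]; exact h1)
    rw [sub_add_cancel, h2] at h3
    exact h3
  have hhT : V.valuation (aeval T h) = 1 := hunit _ _ (hPc h) (hc1 _ hh)
  have hhT0 : aeval T h ≠ 0 := by
    intro h0
    rw [h0, map_zero] at hhT
    exact zero_ne_one hhT
  have hRV : ∀ Q : kc[X][X], eval₂ (aeval T : kc[X] →ₐ[kc] S).toRingHom q Q ∈ V := by
    intro Q
    rw [eval₂_eq_sum_range]
    exact sum_mem fun i _ => mul_mem (hPV _) (pow_mem hqV _)
  have hval : ∀ l, V.valuation (w l) =
      V.valuation (eval₂ (aeval T : kc[X] →ₐ[kc] S).toRingHom q (R l)) := by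
    intro l
    rw [← hR l, map_mul, hhT, one_mul]
  refine ⟨fun l => ?_, ?_⟩
  · rw [← V.valuation_le_one_iff, hval, V.valuation_le_one_iff]
    exact hRV _
  -- the residue of `q`
  have hprod : (X ^ e + ∑ i : Fin e, C ((P i).eval 0) * X ^ (i : ℕ) : kc[X]) =
      ∏ j, (X - C (r j)) := by
    have hdeg : (∑ i : Fin e, C ((P i).eval 0) * X ^ (i : ℕ) : kc[X]).degree < (e : WithBot ℕ) :=
      degree_sum_fin_lt _
    have hmonic : (∏ j, (X - C (r j))).Monic := monic_prod_of_monic _ _ fun j _ =>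
      monic_X_sub_C _
    have hdegp : (∏ j, (X - C (r j))).degree = (e : WithBot ℕ) := by
      rw [degree_prod]
      simp
    have hgm : (X ^ e + ∑ i : Fin e, C ((P i).eval 0) * X ^ (i : ℕ) : kc[X]).Monic :=
      monic_X_pow_add hdeg
    have hgd : (X ^ e + ∑ i : Fin e, C ((P i).eval 0) * X ^ (i : ℕ) : kc[X]).degree =
        (e : WithBot ℕ) := by
      rw [degree_add_eq_left_of_degree_lt, degree_X_pow]
      rw [degree_X_pow]
      exact hdeg
    apply eq_of_degree_sub_lt_of_eval_finset_eq (Finset.univ.image fun j => r j)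
    · rw [Finset.card_image_of_injective _ hr, Finset.card_univ, Fintype.card_fin]
      rcases Nat.eq_zero_or_pos e with he | he
      · subst he
        simp
      · have h1 := degree_sub_lt_left (hgd.trans hdegp.symm) hgm.ne_zero (by
            rw [hgm.leadingCoeff, hmonic.leadingCoeff])
        rwa [hgd] at h1
    · intro x hx
      rw [Finset.mem_image] at hx
      obtain ⟨j, -, rfl⟩ := hx
      rw [eval_prod, Finset.prod_eq_zero (Finset.mem_univ j) (by simp)]
      simp only [eval_add, eval_pow, eval_X, eval_finsetSum, eval_mul, eval_C]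
      exact hr0 j
  have hprod' : q ^ e + ∑ i : Fin e, ((P i).eval 0 : kc) * q ^ (i : ℕ) =
      ∏ j, (q - (r j : S)) := by
    have h1 := congrArg (aeval q) hprod
    simp only [map_add, map_pow, aeval_X, map_sum, map_mul, aeval_C, map_prod, map_sub] at h1
    exact h1
  have hsmall : V.valuation (∏ j, (q - (r j : S))) < 1 := by
    rw [← hprod']
    have h1 : q ^ e + ∑ i : Fin e, ((P i).eval 0 : kc) * q ^ (i : ℕ) =
        -∑ i : Fin e, (aeval T (P i) - ((P i).eval 0 : kc)) * q ^ (i : ℕ) := by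
      have h2 : ∑ i : Fin e, (aeval T (P i) - ((P i).eval 0 : kc)) * q ^ (i : ℕ) =
          ∑ i : Fin e, aeval T (P i) * q ^ (i : ℕ) -
          ∑ i : Fin e, ((P i).eval 0 : kc) * q ^ (i : ℕ) := by
        rw [← Finset.sum_sub_distrib]
        exact Finset.sum_congr rfl fun i _ => by ring
      rw [h2, eq_neg_of_add_eq_zero_left hq]
      ring
    rw [h1, Valuation.map_neg]
    refine Valuation.map_sum_lt' _ zero_lt_one fun i _ => ?_
    rw [map_mul, map_pow]
    exact lt_of_le_of_lt (mul_le_of_le_one_right' (pow_le_one' hq1 _)) (hPc _)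
  obtain ⟨j, hj⟩ : ∃ j, V.valuation (q - (r j : S)) < 1 := by
    by_contra hcon
    push Not at hcon
    rw [map_prod] at hsmall
    exact absurd hsmall (not_lt.2 (Finset.one_le_prod' fun j _ => hcon j))
  -- the value of `w 0`
  rw [hval 0]
  let c0 : kc := eval₂ (evalRingHom 0) (r j) (R 0)
  refine hunit _ (c0 : S) ?_ (hc1 _ (hR0 j))
  have h1 : (c0 : S) = ∑ i ∈ Finset.range ((R 0).natDegree + 1),
      (((R 0).coeff i).eval 0 : kc) * (r j : S) ^ i := by
    change ((eval₂ (evalRingHom 0) (r j) (R 0) : kc) : S) = _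
    rw [eval₂_eq_sum_range]
    push_cast
    rfl
  rw [h1, eval₂_eq_sum_range, ← Finset.sum_sub_distrib]
  refine Valuation.map_sum_lt' _ zero_lt_one fun i _ => ?_
  have h2 : (aeval T : kc[X] →ₐ[kc] S).toRingHom ((R 0).coeff i) * q ^ i -
      (((R 0).coeff i).eval 0 : kc) * (r j : S) ^ i =
      (aeval T ((R 0).coeff i) - (((R 0).coeff i).eval 0 : kc)) * q ^ i +
      (((R 0).coeff i).eval 0 : kc) * (q ^ i - (r j : S) ^ i) := by
    change aeval T ((R 0).coeff i) * q ^ i - _ = _
    ring
  rw [h2]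
  refine lt_of_le_of_lt (Valuation.map_add _ _ _) (max_lt ?_ ?_)
  · rw [map_mul, map_pow]
    exact lt_of_le_of_lt (mul_le_of_le_one_right' (pow_le_one' hq1 _)) (hPc _)
  · rw [map_mul]
    refine lt_of_le_of_lt (mul_le_of_le_one_left' ((V.valuation_le_one_iff _).2 (hcV _))) ?_
    obtain ⟨g, hg⟩ := sub_dvd_pow_sub_pow (⟨q, hqV⟩ : V) (⟨(r j : S), hcV _⟩ : V) i
    have h3 : q ^ i - (r j : S) ^ i = (q - (r j : S)) * (g : S) := congrArg Subtype.val hg
    rw [h3, map_mul]
    exact lt_of_le_of_lt (mul_le_of_le_one_right' ((V.valuation_le_one_iff _).2 g.2)) hj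

/-- the elements are in the field generated by the constants, `T` and `q` -/
theorem SplitW.mem (H : SplitW kc T q w) (hT : Transcendental kc T) {K : Subfield S}
    (hkc : kc ≤ K) (hTK : T ∈ K) (hqK : q ∈ K) (l : Fin (m + 1)) : w l ∈ K := by
  obtain ⟨e, P, r, h, R, hr, hr0, hq, hh, hR, hR0⟩ := H
  have h0 : aeval T h ≠ 0 := by
    intro h1
    apply hh
    rw [(transcendental_iff.1 hT) h h1, eval_zero]
  have hP : ∀ p : kc[X], aeval T p ∈ K := fun p => aeval_mem_of hkc hTK p
  have h2 : w l = eval₂ (aeval T : kc[X] →ₐ[kc] S).toRingHom q (R l) / aeval T h := by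
    rw [eq_div_iff h0, ← hR l]; ring
  rw [h2]
  refine K.div_mem ?_ (hP h)
  rw [eval₂_eq_sum_range]
  exact K.sum_mem fun i _ => K.mul_mem (hP _) (K.pow_mem hqK _)

/-- transport along an embedding -/
theorem SplitW.map {C : Type u} [Field C] {S : Type w} [Field S] (ι : C →+* S) {κ : Subfield C}
    {T q : C} {m : ℕ} {w : Fin (m + 1) → C} (H : SplitW κ T q w) :
    SplitW (κ.map ι) (ι T) (ι q) (fun l => ι (w l)) := by
  obtain ⟨e, P, r, h, R, hr, h1, h2, h3, h4, h5⟩ := H
  let f : κ →+* (κ.map ι) :=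
    (ι.comp κ.subtype).codRestrict (κ.map ι) (fun x => ⟨x, x.2, rfl⟩)
  have hev0 : ∀ p : κ[X], eval 0 (p.map f) = f (eval 0 p) := by
    intro p
    rw [← coeff_zero_eq_eval_zero, ← coeff_zero_eq_eval_zero, coeff_map]
  have haev : ∀ p : κ[X], aeval (ι T) (p.map f) = ι (aeval T p) := by
    intro p
    rw [aeval_def, eval₂_map, aeval_def, hom_eval₂]
    rfl
  refine ⟨e, fun i => (P i).map f, fun j => f (r j), h.map f, fun l => (R l).map (mapRingHom f),
    fun a b hab => hr (f.injective hab), fun j => ?_, ?_, ?_, fun l => ?_, fun j => ?_⟩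
  · have h3 := congrArg f (h1 j)
    simp only [map_add, map_sum, map_mul, map_pow, map_zero] at h3
    refine Eq.trans ?_ h3
    congr 1
    refine Finset.sum_congr rfl fun i _ => ?_
    congr 1
    exact hev0 (P i)
  · have h3 := congrArg ι h2
    simp only [map_add, map_sum, map_mul, map_pow, map_zero] at h3
    refine Eq.trans ?_ h3
    congr 1
    refine Finset.sum_congr rfl fun i _ => ?_
    congr 1
    exact haev (P i)
  · rw [hev0]
    exact fun h0 => h3 (f.injective (by rw [h0, map_zero]))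
  · rw [haev, ← map_mul, h4 l, hom_eval₂, eval₂_map]
    congr 1
    apply RingHom.ext
    intro p
    exact (haev p).symm
  · have h6 := h5 j
    rw [eval₂_map]
    intro h0
    apply h6
    apply f.injective
    rw [map_zero, ← h0, hom_eval₂]
    congr 1
    apply RingHom.ext
    intro p
    exact (hev0 p).symm

end TH
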