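import Pool.Agent.Helper10.RR.GenW2
import Pool.Agent.Helper10.RR.ValW

/-!
# The generic curve with coefficients in a linear system: two theorems
-/

universe u v w

namespace RR

open Polynomial Pool.Agent.Helper37.UL UL TH

section

variable {J : Type v} {U : Ultrafilter J} {C : Type u} [Field C] {S : Type w} [Field S]
  {π : (J → C) →+* S} {m d : ℕ} {vv : J → Fin (d + 1) × Fin (m + 1) → C} (h : UP U π)

lemma pi_W (w : Fin (m + 1) → C) (i : Fin (d + 1)) :
    π (fun a => ∑ e : Fin (m + 1), vv a (i, e) * w e) =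
      ∑ e, xg π vv (i, e) * UP.cst π (w e) := by
  have h1 : (fun a => ∑ e : Fin (m + 1), vv a (i, e) * w e) =
      ∑ e : Fin (m + 1), (fun a => vv a (i, e)) * (fun _ : J => w e) := by
    funext a
    simp only [Finset.sum_apply, Pi.mul_apply]
  rw [h1, map_sum]
  refine Finset.sum_congr rfl fun l _ => ?_
  rw [map_mul]
  rfl

/-- the new variables -/
noncomputable def ydivW {S : Type w} [Field S] {m d : ℕ} (x : Fin (d + 1) × Fin (m + 1) → S)
    (i : Fin (d + 1) × Fin (m + 1)) : S :=
  if i = qd d m then x i else if (i.2 : ℕ) ≠ 1 then x i / x (qd d m) else x i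

include h

theorem exists_W_divW [CharZero C] (hU : ∀ Ψ : MvPolynomial (Fin (d + 1) × Fin (m + 1)) C, Ψ ≠ 0 →
    ∀ᶠ j in (U : Filter J), MvPolynomial.eval (vv j) Ψ ≠ 0)
    (n : Fin (d + 1) × Fin (m + 1) → ℤ) :
    ∃ W : ValuationSubring S, ResZero W ∧ (∀ c : C, UP.cst π c ∈ W) ∧
      (∀ i, ydivW (xg π vv) i ∈ W) ∧ ∀ i, W.valuation (ydivW (xg π vv) i - n i) < 1 := by
  have h0 : AlgebraicIndependent (UP.cst π).fieldRange (ydivW (xg π vv)) :=
    algInd_div (algInd_xgC h hU) (qd d m) (fun i => (i.2 : ℕ) ≠ 1)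
  obtain ⟨W, hW1, hW2⟩ := exists_W h0 (fun i => (n i : (UP.cst π).fieldRange))
  have hc : ∀ c : C, UP.cst π c ∈ W := fun c => hW1 ⟨UP.cst π c, ⟨c, rfl⟩⟩
  have hval : ∀ i, W.valuation (ydivW (xg π vv) i - n i) < 1 := by
    intro i
    have := hW2 i
    rw [map_intCast] at this
    exact this
  refine ⟨W, ?_, hc, fun i => ?_, hval⟩
  · intro m hm
    have hm' : (m : C) ≠ 0 := Nat.cast_ne_zero.mpr hm
    have h1 : UP.cst π (m : C) = (m : S) := map_natCast _ _
    have h2 : (m : S) ≠ 0 := by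
      rw [← h1]
      exact (_root_.map_ne_zero _).mpr hm'
    have h3 := hc (m : C)
    have h4 := hc (m : C)⁻¹
    rw [map_inv₀, h1] at h4
    rw [h1] at h3
    have h5 := (W.valuation_le_one_iff _).2 h3
    have h6 := (W.valuation_le_one_iff _).2 h4
    rw [map_inv₀] at h6
    have h7 : W.valuation (m : S) ≠ 0 := (Valuation.ne_zero_iff _).mpr h2
    exact le_antisymm h5 ((inv_le_one₀ (zero_lt_iff.2 h7)).1 h6)
  · have h1 : ydivW (xg π vv) i - n i ∈ W := (W.valuation_le_one_iff _).1 (hval i).le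
    have h2 : ((n i : ℤ) : S) ∈ W := intCast_mem W (n i)
    have h3 := W.add_mem _ _ h1 h2
    rwa [sub_add_cancel] at h3

/-- the leading coefficient is not zero -/
theorem lead_ne_zero (hU : ∀ Ψ : MvPolynomial (Fin (d + 1) × Fin (m + 1)) C, Ψ ≠ 0 →
    ∀ᶠ j in (U : Filter J), MvPolynomial.eval (vv j) Ψ ≠ 0) {w : Fin (m + 1) → C} (hw0 : w 0 ≠ 0)
    (i : Fin (d + 1)) : ∑ e, xg π vv (i, e) * UP.cst π (w e) ≠ 0 := by
  classical
  rw [← pi_W, Ne, h.eq0]
  intro h1
  have h2 := hU (∑ e : Fin (m + 1), MvPolynomial.C (w e) * MvPolynomial.X (i, e)) (by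
    intro h0
    have h3 := congrArg (MvPolynomial.coeff (Finsupp.single (i, (0 : Fin (m + 1))) 1)) h0
    rw [MvPolynomial.coeff_sum, MvPolynomial.coeff_zero] at h3
    simp only [MvPolynomial.coeff_C_mul, MvPolynomial.coeff_X] at h3
    rw [Finset.sum_eq_single 0] at h3
    · rw [if_pos rfl, mul_one] at h3
      exact hw0 h3
    · intro e _ he
      rw [if_neg, mul_zero]
      intro h4
      apply he
      have h5 := Finsupp.single_left_injective (one_ne_zero (α := ℕ)) h4
      exact (Prod.mk.inj h5).2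
    · intro h4
      exact absurd (Finset.mem_univ _) h4)
  obtain ⟨a, ha1, ha2⟩ := (h1.and h2).exists
  apply ha2
  rw [map_sum, ← ha1]
  refine Finset.sum_congr rfl fun e _ => ?_
  rw [map_mul, MvPolynomial.eval_C, MvPolynomial.eval_X]
  ring

/-- **2-transitivity for the generic curve with coefficients in a linear system.** -/
theorem two_trans_theta [IsAlgClosed C] [CharZero C]
    (hU : ∀ Ψ : MvPolynomial (Fin (d + 1) × Fin (m + 1)) C, Ψ ≠ 0 →
      ∀ᶠ j in (U : Filter J), MvPolynomial.eval (vv j) Ψ ≠ 0)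
    {κ : Subfield C} (hv : ∀ j i, vv j i ∈ κ) {T : C} (hT : AlgebraicIndependent κ ![T])
    {q : C} {w : Fin (m + 1) → C} (hw : SplitW κ T q w) (hw0 : w 0 ≠ 0)
    (hw1 : ∀ e : Fin (m + 1), (e : ℕ) = 1 → w e = T * w 0)
    (hd : 3 ≤ d) (hm : 1 ≤ m) {θ : Fin d → S} (hθ : Function.Injective θ)
    (hroot : ∀ i, ∑ l : Fin (d + 1), (π fun a => ∑ e : Fin (m + 1), vv a (l, e) *
      w e) * θ i ^ (l : ℕ) = 0) {i j i' j' : Fin d} (hij : i ≠ j) (hij' : i' ≠ j') :
    ∃ σ : S ≃+* S, (∀ x ∈ gen (h.gsub κ) (fun i => UP.cst π ((![T] : Fin 1 → C) i)), σ x = x) ∧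
      σ (UP.cst π q) = UP.cst π q ∧ σ (θ i) = θ i' ∧ σ (θ j) = θ j' := by
  classical
  have := h.isAlgClosed
  have := h.charZero
  obtain ⟨W, hW, hWc, hWx, hWv⟩ := exists_W_divW h hU n3
  set x := xg π vv with hx
  set v : S := x (qd d m) with hvdef
  have hv0 : v ≠ 0 := (algInd_xgC h hU).ne_zero (qd d m)
  have hxA : ∀ q, x q ∈ h.gsub κ := fun q => ⟨_, fun j => hv j q, rfl⟩
  have hvA : v ∈ h.gsub κ := hxA _
  have hyv : ydivW x (qd d m) = v := by
    unfold ydivW
    rw [if_pos rfl]
  have hvW : W.valuation v < 1 := by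
    have h1 := hWv (qd d m)
    rw [hyv] at h1
    have h2 : n3 (qd d m) = 0 := by
      unfold n3
      rw [if_pos rfl]
    rwa [h2, Int.cast_zero, sub_zero] at h1
  set T' := UP.cst π T with hT'
  let w' : Fin (m + 1) → S := fun e => UP.cst π (w e)
  have hw0' : w' 0 ≠ 0 := (_root_.map_ne_zero _).2 hw0
  have hw1' : ∀ e : Fin (m + 1), (e : ℕ) = 1 → w' e = T' * w' 0 := by
    intro e he
    change UP.cst π (w e) = _
    rw [hw1 e he, map_mul]
  let s : S := T' / v
  have hsv : s * v = T' := div_mul_cancel₀ _ hv0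
  -- `s` is transcendental
  have hτ : AlgebraicIndependent (h.gsub κ) (![s] : Fin 1 → S) := by
    have h1 := h.algInd hT
    rw [algebraicIndependent_unique_type_iff] at h1 ⊢
    intro h2
    apply h1
    have h3 : UP.cst π ((![T] : Fin 1 → C) default) = s * v := by
      rw [hsv]
      rfl
    rw [h3]
    exact IsAlgebraic.mul h2 (isAlgebraic_algebraMap (⟨v, hvA⟩ : h.gsub κ))
  let κ' : Subfield S := κ.map (UP.cst π)
  have hκA : κ' ≤ h.gsub κ := by
    rintro _ ⟨c, hc, rfl⟩
    exact h.const_mem_gsub.mpr hc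
  have hκW : ∀ x ∈ κ', x ∈ W := by
    rintro _ ⟨c, hc, rfl⟩
    exact hWc c
  have hsW : SplitW κ' T' (UP.cst π q) w' := hw.map (UP.cst π)
  have hq' : SplitAt κ' ((![s] : Fin 1 → S) 0 * v) (UP.cst π q) := by
    have h2 : (![s] : Fin 1 → S) 0 * v = T' := hsv
    rw [h2]
    exact hsW.splitAt
  have hTtr : Transcendental κ' T' := by
    have h1 : Transcendental (h.gsub κ) T' := (h.algInd hT).transcendental 0
    let _ : Algebra κ' (h.gsub κ) := (Subfield.inclusion hκA).toAlgebra
    have : IsScalarTower κ' (h.gsub κ) S := IsScalarTower.of_algebraMap_eq fun _ => rfl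
    exact h1.restrictScalars (Subfield.inclusion hκA).injective
  -- the coefficients
  let K1 : Subfield S := Subfield.closure ((gen (h.gsub κ) (![s] : Fin 1 → S) : Set S) ∪
    {UP.cst π q})
  have hAK1 : h.gsub κ ≤ K1 := fun x hx => Subfield.subset_closure (Or.inl (le_gen hx))
  have hsK1 : s ∈ K1 := Subfield.subset_closure (Or.inl (gen_mem (τ := (![s] : Fin 1 → S)) 0))
  have hTK1 : T' ∈ K1 := by
    rw [← hsv]
    exact K1.mul_mem hsK1 (hAK1 hvA)
  have hwK1 : ∀ e, w' e ∈ K1 := fun e =>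
    hsW.mem hTtr (hκA.trans hAK1) hTK1 (Subfield.subset_closure (Or.inr rfl)) e
  let f : Fin (d + 1) → S := fun l => ∑ e, x (l, e) * w' e
  have hf : ∀ l, (π fun a => ∑ e : Fin (m + 1), vv a (l, e) * w e) = f l := fun l => pi_W w l
  let c : Fin (d + 1) → S := fun l => f l / (w' 0 * v)
  have hwv : w' 0 * v ≠ 0 := mul_ne_zero hw0' hv0
  -- the terms
  let y : Fin (d + 1) → Fin (m + 1) → S := fun l e => if (e : ℕ) = 1 then x (l, e) else x (l, e) / v
  let g : Fin (m + 1) → S := fun e => if (e : ℕ) = 0 then 1 else if (e : ℕ) = 1 then s else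
    w' e / w' 0
  have hcsum : ∀ l, c l = ∑ e, y l e * g e := by
    intro l
    change (∑ e, x (l, e) * w' e) / (w' 0 * v) = _
    rw [Finset.sum_div]
    refine Finset.sum_congr rfl fun e _ => ?_
    simp only [y, g]
    by_cases h0 : (e : ℕ) = 0
    · have h1 : e = 0 := Fin.ext h0
      subst h1
      rw [if_neg (by simp), if_pos (by simp)]
      field_simp
    · by_cases h1 : (e : ℕ) = 1
      · rw [if_pos h1, if_neg h0, if_pos h1, hw1' e h1]
        simp only [s]
        field_simp
      · rw [if_neg h1, if_neg h0, if_neg h1]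
        field_simp
  have hyA : ∀ l e, y l e ∈ h.gsub κ := by
    intro l e
    simp only [y]
    split_ifs
    · exact hxA _
    · exact div_mem (hxA _) hvA
  have hyW : ∀ l e, W.valuation (y l e - (n1 (l, e) : S)) < 1 := by
    intro l e
    by_cases h2 : (l, e) = qd d m
    · have h3 : (e : ℕ) = 0 := by
        have := congrArg (fun q => (q.2 : ℕ)) h2
        simpa [qd] using this
      have h4 : (l : ℕ) = d := by
        have := congrArg (fun q => (q.1 : ℕ)) h2
        simpa [qd] using this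
      have h5 : y l e = 1 := by
        simp only [y]
        rw [if_neg (by omega), h2]
        exact div_self hv0
      have h6 : (n1 (l, e) : ℤ) = 1 := by
        unfold n1
        rw [if_pos h3, if_pos h4]
      rw [h5, h6, Int.cast_one, sub_self, map_zero]
      exact zero_lt_one
    · have h3 := hWv (l, e)
      unfold n3 ydivW at h3
      rw [if_neg h2, if_neg h2] at h3
      by_cases h4 : (e : ℕ) = 1
      · rw [if_neg (by simpa using h4)] at h3
        simp only [y]
        rw [if_pos h4]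
        exact h3
      · rw [if_pos (by simpa using h4)] at h3
        simp only [y]
        rw [if_neg h4]
        exact h3
  have htgt : ∀ l : Fin (d + 1), tgt d s (l : ℕ) = ∑ e, (n1 (l, e) : S) * g e := by
    intro l
    rw [tgt]
    have hne : (0 : Fin (m + 1)) ≠ ⟨1, by omega⟩ := by
      intro h
      simpa using congrArg Fin.val h
    rw [← Finset.add_sum_erase Finset.univ _ (Finset.mem_univ (0 : Fin (m + 1))),
      ← Finset.add_sum_erase _ _ (Finset.mem_erase.2 ⟨hne.symm, Finset.mem_univ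
        (⟨1, by omega⟩ : Fin (m + 1))⟩), Finset.sum_eq_zero, add_zero]
    · simp only [g, n1]
      have hl0 : l = 0 ↔ (l : ℕ) = 0 := by
        constructor
        · rintro rfl; rfl
        · intro h; exact Fin.ext h
      simp only [hl0]
      by_cases h1 : (l : ℕ) = d
      · have h2 : (l : ℕ) ≠ 0 := by omega
        simp [h1]
        omega
      · by_cases h2 : (l : ℕ) = d - 1
        · have h3 : (l : ℕ) ≠ 0 := by omega
          simp [h2]
          omega
        · by_cases h3 : (l : ℕ) = 0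
          · have e1 : ¬ (0 = d) := by omega
            have e2 : ¬ (0 = d - 1) := by omega
            simp [h3, e1, e2]
          · simp [h1, h2, h3]
    · intro e he
      have h1 : (e : ℕ) ≠ 0 := by
        intro h
        exact (Finset.mem_erase.1 (Finset.mem_of_mem_erase he)).1 (Fin.ext h)
      have h2 : (e : ℕ) ≠ 1 := by
        intro h
        exact (Finset.mem_erase.1 he).1 (Fin.ext h)
      have h3 : (n1 (l, e) : ℤ) = 0 := by
        unfold n1
        rw [if_neg h1, if_neg h2]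
      rw [h3, Int.cast_zero, zero_mul]
  have hc : ∀ l, c l ∈ K1 := by
    intro l
    refine K1.div_mem (K1.sum_mem fun e _ => K1.mul_mem (hAK1 (hxA _)) (hwK1 e))
      (K1.mul_mem (hwK1 0) (hAK1 hvA))
  have hval : ∀ V : ValuationSubring S, (∀ x ∈ h.gsub κ, x ∈ W → x ∈ V) →
      (∀ x ∈ h.gsub κ, W.valuation x < 1 → V.valuation x < 1) → (![s] : Fin 1 → S) 0 ∈ V →
      ∀ l : Fin (d + 1), V.valuation (c l - tgt d ((![s] : Fin 1 → S) 0) (l : ℕ)) < 1 := by
    intro V hV1 hV2 hV3 l
    have hsV : s ∈ V := hV3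
    have hTV : V.valuation T' < 1 := by
      rw [← hsv, map_mul]
      exact lt_of_le_of_lt (mul_le_of_le_one_left' ((V.valuation_le_one_iff _).2 hsV))
        (hV2 v hvA hvW)
    obtain ⟨hwV, hw0V⟩ := hsW.val V (fun x hx => hV1 x (hκA hx) (hκW x hx)) hTV
    have hgV : ∀ e, V.valuation (g e) ≤ 1 := by
      intro e
      simp only [g]
      split_ifs
      · rw [map_one]
      · exact (V.valuation_le_one_iff _).2 hsV
      · rw [map_div₀, hw0V, div_one]
        exact (V.valuation_le_one_iff _).2 (hwV e)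
    change V.valuation (c l - tgt d s (l : ℕ)) < 1
    rw [hcsum, htgt, ← Finset.sum_sub_distrib]
    refine Valuation.map_sum_lt' _ zero_lt_one fun e _ => ?_
    rw [← sub_mul, map_mul]
    refine lt_of_le_of_lt (mul_le_of_le_one_right' (hgV e)) (hV2 _ ?_ (hyW l e))
    exact sub_mem (hyA l e) (intCast_mem _ _)
  have hlead : c (Fin.last d) ≠ 0 := div_ne_zero (lead_ne_zero h hU hw0 _) hwv
  have hroot' : ∀ i, ∑ l, c l * θ i ^ (l : ℕ) = 0 := by
    intro i
    have h1 : ∀ l : Fin (d + 1), c l * θ i ^ (l : ℕ) =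
        ((π fun a => ∑ e : Fin (m + 1), vv a (l, e) * w e) * θ i ^ (l : ℕ)) / (w' 0 * v) := by
      intro l
      rw [hf l]
      simp only [c]
      ring
    rw [Finset.sum_congr rfl (fun l _ => h1 l), ← Finset.sum_div, hroot i, zero_div]
  obtain ⟨σ, hσ1, hσ2, hσ3, hσ4⟩ := two_trans_gen hτ hd c W hW hκA hκW hvA hvW hq' hc hlead hval
    hθ hroot' hij hij'
  refine ⟨σ, fun y hy => hσ1 y ?_, hσ4, hσ2, hσ3⟩
  have hle : gen (h.gsub κ) (fun i => UP.cst π ((![T] : Fin 1 → C) i)) ≤
      gen (h.gsub κ) (![s] : Fin 1 → S) := by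
    unfold gen
    rw [Subfield.closure_le, Set.union_subset_iff]
    refine ⟨fun a ha => Subfield.subset_closure (Or.inl ha), ?_⟩
    rintro _ ⟨i, rfl⟩
    have h3 : (fun i => UP.cst π ((![T] : Fin 1 → C) i)) i = s * v := by
      rw [hsv]
      fin_cases i
      rfl
    rw [h3]
    refine mul_mem (Subfield.subset_closure (Or.inr ⟨0, rfl⟩))
      (Subfield.subset_closure (Or.inl hvA))
  exact hle hy

end

end RR
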