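import Pool.Agent.Helper10.RR.ThetaW

/-!
# No level one structure for the generic curve with coefficients in a linear system
-/

universe u v w

namespace RR

open Polynomial Pool.Agent.Helper37.UL UL TH

section

variable {J : Type v} {U : Ultrafilter J} {C : Type u} [Field C] {S : Type w} [Field S]
  {π : (J → C) →+* S} {m d : ℕ} {vv : J → Fin (d + 1) × Fin (m + 1) → C} (h : UP U π)

include h

/-- **No level one structure for the generic curve with coefficients in a linear system.** -/
theorem no_lev_theta [IsAlgClosed C] [CharZero C]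
    (hU : ∀ Ψ : MvPolynomial (Fin (d + 1) × Fin (m + 1)) C, Ψ ≠ 0 →
      ∀ᶠ j in (U : Filter J), MvPolynomial.eval (vv j) Ψ ≠ 0)
    {κ : Subfield C} {T : C} (hT : AlgebraicIndependent κ ![T]) {q : C}
    {w : Fin (m + 1) → C} (hw : SplitW κ T q w) (hw0 : w 0 ≠ 0)
    (hw1 : ∀ e : Fin (m + 1), (e : ℕ) = 1 → w e = T * w 0)
    {p : ℕ} (hp : p.Prime) (hd : 3 ≤ d) (hm : 1 ≤ m)
    {L' : Subfield S} (hL : L' ≤ Subfield.closure ((UP.cst π '' κ) ∪ Set.range (xg π vv)))
    {θ : Fin d → S} {z : Fin d → Fin d → S} {α : S}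
    (hl : Lev (Subfield.closure ((gen L' (fun i => UP.cst π ((![T] : Fin 1 → C) i)) : Set S) ∪
      {UP.cst π q})) p
      (fun i : Fin (d + 1) => π fun a => ∑ e : Fin (m + 1), vv a (i, e) * w e)
      θ z α) : False := by
  classical
  have := h.isAlgClosed
  have := h.charZero
  obtain ⟨W, hW, hWc, hWx, hWv⟩ := exists_W_C h hU n2
  set x := xg π vv with hx
  set y := ynew x with hy
  let Cst := (UP.cst π).fieldRange
  let κ' : Subfield S := κ.map (UP.cst π)
  have hκC : κ' ≤ Cst := by
    rintro _ ⟨c, -, rfl⟩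
    exact ⟨c, rfl⟩
  have hTC : UP.cst π T ∈ Cst := ⟨T, rfl⟩
  have hyC : AlgebraicIndependent Cst y := algInd_ynew hd (algInd_xgC h hU)
  -- `T` is transcendental over `κ'`
  have hT' : AlgebraicIndependent κ' ![UP.cst π T] := by
    have h1 := h.algInd hT
    have h2 : κ' ≤ h.gsub κ := by
      rintro _ ⟨c, hc, rfl⟩
      exact h.const_mem_gsub.mpr hc
    have h3 : (fun i => UP.cst π ((![T] : Fin 1 → C) i)) = ![UP.cst π T] := by
      funext i
      fin_cases i; rfl
    rw [h3] at h1
    let _ : Algebra κ' (h.gsub κ) := (Subfield.inclusion h2).toAlgebra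
    have : IsScalarTower κ' (h.gsub κ) S := IsScalarTower.of_algebraMap_eq fun _ => rfl
    exact h1.restrictScalars (Subfield.inclusion h2).injective
  have hTtr : Transcendental κ' (UP.cst π T) := hT'.transcendental 0
  -- `y` is algebraically independent over `κ'[T]`
  have hyT : AlgebraicIndependent (Algebra.adjoin κ' (Set.range ![UP.cst π T])) y := by
    have hle : ∀ a : S, a ∈ Algebra.adjoin κ' (Set.range ![UP.cst π T]) → a ∈ Cst := by
      intro a ha
      have h1 : Algebra.adjoin κ' (Set.range ![UP.cst π T]) ≤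
          { Cst.toSubring with algebraMap_mem' := fun q => hκC q.2 } := by
        rw [Algebra.adjoin_le_iff]
        rintro _ ⟨i, rfl⟩
        fin_cases i
        exact hTC
      exact h1 ha
    let _ : Algebra (Algebra.adjoin κ' (Set.range ![UP.cst π T])) Cst := RingHom.toAlgebra
      { toFun := fun a => ⟨a, hle a a.2⟩
        map_one' := rfl
        map_mul' := fun _ _ => rfl
        map_zero' := rfl
        map_add' := fun _ _ => rfl }
    have : IsScalarTower (Algebra.adjoin κ' (Set.range ![UP.cst π T])) Cst S :=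
      IsScalarTower.of_algebraMap_eq fun _ => rfl
    refine hyC.restrictScalars (K := Cst) ?_
    intro a b hab
    exact Subtype.ext (congrArg (fun t : Cst => (t : S)) hab)
  have hyT2 : AlgebraicIndependent κ' (Sum.elim y ![UP.cst π T]) :=
    AlgebraicIndependent.sumElim_iff.2 ⟨hT', hyT⟩
  -- rearrange
  let Q := {q : Fin (d + 1) × Fin (m + 1) // q ≠ qd d m}
  let φ : Fin 2 ⊕ Q → (Fin (d + 1) × Fin (m + 1)) ⊕ Fin 1 :=
    Sum.elim ![Sum.inr 0, Sum.inl (qd d m)] (fun q => Sum.inl q.1)
  have hφ : Function.Injective φ := by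
    rintro (i | q) (j | q') hij
    · fin_cases i <;> fin_cases j <;> simp [φ] at hij ⊢
    · fin_cases i
      · simp [φ] at hij
      · simp only [φ, Sum.elim_inl, Sum.elim_inr] at hij
        exact absurd (Sum.inl_injective hij).symm q'.2
    · fin_cases j
      · simp [φ] at hij
      · simp only [φ, Sum.elim_inl, Sum.elim_inr] at hij
        exact absurd (Sum.inl_injective hij) q.2
    · simp only [φ, Sum.elim_inr] at hij
      rw [Subtype.ext (Sum.inl_injective hij)]
  have hyqd : y (qd d m) = x (qd d m) := by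
    rw [hy]
    unfold ynew
    rw [if_neg (qd_ne_qe hd)]
  have h3 : AlgebraicIndependent κ' (Sum.elim ![UP.cst π T, x (qd d m)] (fun q : Q => y q.1)) := by
    have h4 := hyT2.comp φ hφ
    have e : Sum.elim y ![UP.cst π T] ∘ φ =
        Sum.elim ![UP.cst π T, x (qd d m)] (fun q : Q => y q.1) := by
      funext i
      rcases i with i | q
      · fin_cases i
        · rfl
        · exact hyqd
      · rfl
    rwa [e] at h4
  have h4 := (AlgebraicIndependent.sumElim_iff.1 h3).2
  have h5 : AlgebraicIndependent (IntermediateField.adjoin κ' (Set.range fun q : Q => y q.1))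
      ![UP.cst π T, x (qd d m)] := IntermediateField.algebraicIndependent_adjoin_iff.2 h4
  let A : Subfield S := (IntermediateField.adjoin κ' (Set.range fun q : Q => y q.1)).toSubfield
  have hA : AlgebraicIndependent A ![UP.cst π T, x (qd d m)] := h5
  have hyA : ∀ q, q ≠ qd d m → y q ∈ A := fun q hq =>
    IntermediateField.subset_adjoin κ' _ ⟨⟨q, hq⟩, rfl⟩
  have hκA : κ' ≤ A := fun c hc => IntermediateField.algebraMap_mem _ (⟨c, hc⟩ : κ')
  have hκW : ∀ x ∈ κ', x ∈ W := by
    rintro _ ⟨c, hc, rfl⟩
    exact hWc c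
  set T' := UP.cst π T with hT'def
  set v : S := x (qd d m) with hvdef
  have hv0 : v ≠ 0 := (algInd_xgC h hU).ne_zero (qd d m)
  let w' : Fin (m + 1) → S := fun e => UP.cst π (w e)
  have hw0' : w' 0 ≠ 0 := (_root_.map_ne_zero _).2 hw0
  have hw1' : ∀ e : Fin (m + 1), (e : ℕ) = 1 → w' e = T' * w' 0 := by
    intro e he
    change UP.cst π (w e) = _
    rw [hw1 e he, map_mul]
  have hsW : SplitW κ' T' (UP.cst π q) w' := hw.map (UP.cst π)
  have hq' : SplitAt κ' ((![T', v] : Fin 2 → S) 0) (UP.cst π q) := hsW.splitAt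
  -- the field
  let K1 : Subfield S := Subfield.closure ((gen A ![T', v] : Set S) ∪ {UP.cst π q})
  have hgK1 : gen A ![T', v] ≤ K1 := fun x hx => Subfield.subset_closure (Or.inl hx)
  have hxmem : ∀ q, x q ∈ gen A ![T', v] := by
    intro q
    have hu : v ∈ gen A ![T', v] := gen_mem (τ := ![T', v]) 1
    by_cases hq : q = qd d m
    · rw [hq]; exact hu
    · have h7 : y q ∈ gen A ![T', v] := le_gen (hyA q hq)
      by_cases hq' : q = qe d m
      · have h8 : y q = x q + v := by
          rw [hy]; unfold ynew; rw [if_pos hq']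
        have h9 : x q = y q - v := by rw [h8]; ring
        rw [h9]
        exact sub_mem h7 hu
      · have h8 : y q = x q := by
          rw [hy]; unfold ynew; rw [if_neg hq']
        rwa [h8] at h7
  have hTK1 : T' ∈ K1 := hgK1 (gen_mem (τ := ![T', v]) 0)
  have hwK1 : ∀ e, w' e ∈ K1 := fun e =>
    hsW.mem hTtr ((hκA.trans le_gen).trans hgK1) hTK1 (Subfield.subset_closure (Or.inr rfl)) e
  let c : Fin (d + 1) → S := fun l => (∑ e, x (l, e) * w' e) / w' 0
  have hc : ∀ l, c l ∈ K1 := fun l =>
    K1.div_mem (K1.sum_mem fun e _ => K1.mul_mem (hgK1 (hxmem _)) (hwK1 e)) (hwK1 0)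
  -- the terms
  let yy : Fin (d + 1) → Fin (m + 1) → S := fun l e =>
    if (l, e) = qd d m then 0 else y (l, e)
  let s : S := T' / v
  let g : Fin (m + 1) → S := fun e => if (e : ℕ) = 0 then v⁻¹ else if (e : ℕ) = 1 then s else
    w' e / w' 0 / v
  let t0 : Fin (d + 1) → S := fun l => if (l : ℕ) = d then 1 else if (l : ℕ) = d - 1 then -1 else 0
  have hzero : ∀ (e : Fin (m + 1)), (e : ℕ) = 0 ↔ e = 0 := fun e =>
    ⟨fun h => Fin.ext h, fun h => by rw [h]; rfl⟩
  have hcsum : ∀ l, c l / v = t0 l + ∑ e, yy l e * g e := by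
    intro l
    have h1 : ∀ e, x (l, e) * w' e / w' 0 / v = (if e = 0 then t0 l else 0) + yy l e * g e := by
      intro e
      simp only [yy, g]
      by_cases h0 : e = 0
      · subst h0
        have e0 : ((0 : Fin (m + 1)) : ℕ) = 0 := rfl
        rw [if_pos (rfl : (0 : Fin (m + 1)) = 0), if_pos e0]
        simp only [t0]
        by_cases hl1 : (l : ℕ) = d
        · have h2 : (l, (0 : Fin (m + 1))) = qd d m := by
            have : l = Fin.last d := Fin.ext hl1
            rw [this]; rfl
          rw [if_pos hl1, if_pos h2, h2]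
          change v * w' 0 / w' 0 / v = _
          field_simp
          ring
        · have h2 : (l, (0 : Fin (m + 1))) ≠ qd d m := by
            intro h
            have := congrArg (fun q => (q.1 : ℕ)) h
            exact hl1 (by simpa [qd] using this)
          rw [if_neg hl1, if_neg h2]
          by_cases hl2 : (l : ℕ) = d - 1
          · have h3 : (l, (0 : Fin (m + 1))) = qe d m := by
              have : l = ⟨d - 1, by omega⟩ := Fin.ext hl2
              rw [this]; rfl
            rw [if_pos hl2, hy]
            unfold ynew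
            rw [if_pos h3]
            change x (l, 0) * w' 0 / w' 0 / v = -1 + (x (l, 0) + v) * v⁻¹
            field_simp
            ring
          · have h3 : (l, (0 : Fin (m + 1))) ≠ qe d m := by
              intro h
              have := congrArg (fun q => (q.1 : ℕ)) h
              exact hl2 (by simpa [qe] using this)
            rw [if_neg hl2, hy]
            unfold ynew
            rw [if_neg h3]
            field_simp
            ring
      · have h0' : (e : ℕ) ≠ 0 := fun h => h0 ((hzero e).1 h)
        have h2 : (l, e) ≠ qd d m := by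
          intro h
          exact h0 (congrArg Prod.snd h)
        have h3 : (l, e) ≠ qe d m := by
          intro h
          exact h0 (congrArg Prod.snd h)
        rw [if_neg h0, if_neg h2, if_neg h0', hy, zero_add]
        unfold ynew
        rw [if_neg h3]
        by_cases h1 : (e : ℕ) = 1
        · rw [if_pos h1, hw1' e h1]
          simp only [s]
          field_simp
        · rw [if_neg h1]
          field_simp
    change (∑ e, x (l, e) * w' e) / w' 0 / v = _
    rw [Finset.sum_div, Finset.sum_div, Finset.sum_congr rfl (fun e _ => h1 e),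
      Finset.sum_add_distrib, Finset.sum_ite_eq', if_pos (Finset.mem_univ _)]
  have htgt : ∀ l : Fin (d + 1), tgt d s (l : ℕ) = t0 l + ∑ e, (n2 (l, e) : S) * g e := by
    intro l
    have h1 : ∑ e, (n2 (l, e) : S) * g e = if (l : ℕ) = 0 then -s else 0 := by
      rw [Finset.sum_eq_single (⟨1, by omega⟩ : Fin (m + 1))]
      · simp only [g, n2]
        have hl0 : l = 0 ↔ (l : ℕ) = 0 := by
          constructor
          · rintro rfl; rfl
          · intro h; exact Fin.ext h
        simp only [hl0]
        by_cases h3 : (l : ℕ) = 0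
        · simp [h3]
        · simp [h3]
      · intro e _ he
        have h2 : (e : ℕ) ≠ 1 := fun h => he (Fin.ext h)
        have h3 : (n2 (l, e) : ℤ) = 0 := by
          unfold n2
          rw [if_neg h2]
        rw [h3, Int.cast_zero, zero_mul]
      · intro h
        exact absurd (Finset.mem_univ _) h
    rw [h1, tgt]
    simp only [t0]
    by_cases h1 : (l : ℕ) = d
    · have h2 : (l : ℕ) ≠ 0 := by omega
      rw [if_pos h1, if_pos h1, if_neg h2, add_zero]
    · by_cases h2 : (l : ℕ) = d - 1
      · have h3 : (l : ℕ) ≠ 0 := by omega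
        rw [if_neg h1, if_pos h2, if_neg h1, if_pos h2, if_neg h3, add_zero]
      · rw [if_neg h1, if_neg h2, if_neg h1, if_neg h2, zero_add]
  have hyyA : ∀ l e, yy l e ∈ A := by
    intro l e
    simp only [yy]
    split_ifs with h1
    · exact A.zero_mem
    · exact hyA _ h1
  have hyyW : ∀ l e, W.valuation (yy l e - (n2 (l, e) : S)) < 1 := by
    intro l e
    simp only [yy]
    by_cases h1 : (l, e) = qd d m
    · rw [if_pos h1, h1]
      have h2 : (n2 (qd d m) : ℤ) = 0 := by
        unfold n2
        rw [if_neg (by simp [qd])]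
      rw [h2, Int.cast_zero, sub_self, map_zero]
      exact zero_lt_one
    · rw [if_neg h1, hy]
      unfold ynew
      by_cases h2 : (l, e) = qe d m
      · rw [if_pos h2, h2]
        have e1 := hWv (qe d m)
        have e2 := hWv (qd d m)
        have e3 : (n2 (qd d m) : ℤ) = 0 := by
          unfold n2
          rw [if_neg (by simp [qd])]
        rw [e3, Int.cast_zero, sub_zero] at e2
        have e4 : x (qe d m) + x (qd d m) - (n2 (qe d m) : S) =
            (x (qe d m) - (n2 (qe d m) : S)) + x (qd d m) := by ring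
        rw [e4]
        exact lt_of_le_of_lt (Valuation.map_add _ _ _) (max_lt e1 e2)
      · rw [if_neg h2]
        exact hWv (l, e)
  have hval : ∀ V : ValuationSubring S, (∀ x ∈ A, x ∈ W → x ∈ V) →
      (∀ x ∈ A, W.valuation x < 1 → V.valuation x < V.valuation ((![T', v] : Fin 2 → S) 1)) →
      V.valuation ((![T', v] : Fin 2 → S) 1) < 1 →
      (![T', v] : Fin 2 → S) 0 / (![T', v] : Fin 2 → S) 1 ∈ V → V.valuation (w' 0) = 1 ∧
      ∀ l : Fin (d + 1), V.valuation (c l / (![T', v] : Fin 2 → S) 1 -
        tgt d ((![T', v] : Fin 2 → S) 0 / (![T', v] : Fin 2 → S) 1) (l : ℕ)) < 1 := by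
    intro V hV1 hV2' hV3' hV4'
    have hV2 : ∀ x ∈ A, W.valuation x < 1 → V.valuation x < V.valuation v := hV2'
    have hV3 : V.valuation v < 1 := hV3'
    have hV4 : s ∈ V := hV4'
    have hs1 : V.valuation s ≤ 1 := (V.valuation_le_one_iff _).2 hV4
    have hTV : V.valuation T' < 1 := by
      have h1 : T' = s * v := (div_mul_cancel₀ _ hv0).symm
      rw [h1, map_mul]
      exact lt_of_le_of_lt (mul_le_of_le_one_left' hs1) hV3
    obtain ⟨hwV, hw0V⟩ := hsW.val V (fun x hx => hV1 x (hκA hx) (hκW x hx)) hTV
    refine ⟨hw0V, fun l => ?_⟩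
    have hvv : V.valuation v ≠ 0 := (_root_.map_ne_zero _).2 hv0
    have hv1 : 1 ≤ (V.valuation v)⁻¹ := (one_le_inv₀ (zero_lt_iff.2 hvv)).2 hV3.le
    have hgV : ∀ e, V.valuation (g e) ≤ (V.valuation v)⁻¹ := by
      intro e
      simp only [g]
      split_ifs
      · rw [map_inv₀]
      · exact hs1.trans hv1
      · rw [map_div₀, map_div₀, hw0V, div_one, div_eq_mul_inv]
        exact mul_le_of_le_one_left' ((V.valuation_le_one_iff _).2 (hwV e))
    change V.valuation (c l / v - tgt d s (l : ℕ)) < 1
    rw [hcsum, htgt, add_sub_add_left_eq_sub, ← Finset.sum_sub_distrib]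
    refine Valuation.map_sum_lt' _ zero_lt_one fun e _ => ?_
    rw [← sub_mul, map_mul]
    have h1 : V.valuation (yy l e - (n2 (l, e) : S)) < V.valuation v :=
      hV2 _ (sub_mem (hyyA l e) (intCast_mem _ _)) (hyyW l e)
    calc V.valuation (yy l e - (n2 (l, e) : S)) * V.valuation (g e)
        ≤ V.valuation (yy l e - (n2 (l, e) : S)) * (V.valuation v)⁻¹ :=
          mul_le_mul_right (hgV e) _
      _ < V.valuation v * (V.valuation v)⁻¹ := by
          exact mul_lt_mul_of_pos_right h1 (lt_of_lt_of_le zero_lt_one hv1)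
      _ = 1 := mul_inv_cancel₀ hvv
  refine no_lev_gen hA hp hd c (w0 := w' 0) W hW hκA hκW hq' (hwK1 0) hc hval (θ := θ) (z := z)
    (α := α) ?_
  have h6 : (fun i : Fin (d + 1) => π fun a => ∑ e : Fin (m + 1), vv a (i, e) * w e) =
      fun i => w' 0 * c i := by
    funext i
    rw [pi_W]
    simp only [c]
    rw [mul_div_cancel₀ _ hw0']
  rw [h6] at hl
  refine hl.mono ?_
  have hL' : L' ≤ gen A ![T', v] := by
    refine hL.trans ?_
    rw [Subfield.closure_le, Set.union_subset_iff]
    refine ⟨?_, ?_⟩
    · rintro _ ⟨c, hc, rfl⟩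
      exact le_gen (hκA ⟨c, hc, rfl⟩)
    · rintro _ ⟨q, rfl⟩
      exact hxmem q
  have hgen : gen L' (fun i => UP.cst π ((![T] : Fin 1 → C) i)) ≤ gen A ![T', v] := by
    unfold gen at hL' ⊢
    rw [Subfield.closure_le, Set.union_subset_iff]
    refine ⟨hL', ?_⟩
    rintro _ ⟨i, rfl⟩
    refine Subfield.subset_closure (Or.inr ⟨0, ?_⟩)
    fin_cases i
    rfl
  exact Subfield.closure_mono (Set.union_subset_union_left _ hgen)

end

end RR
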